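import Pool.Agent.Helper82.RG.Gfu

/-!
# RG: the bilinear forms
-/

open MeasureTheory Set Filter Topology Complex
open Pool.Agent.Helper57.Zeta Pool.Agent.Helper57.LH Pool.Agent.Helper57.ED

namespace Pool.Agent.Helper82.RG

lemma jint {l σ a : ℝ} {n : ℕ} (hn : 1 ≤ n) (hl : 0 < l) (hσ : 0 < σ) (ha : 0 < a) :
    IntegrableOn (fun u : ℝ => (u / n) ^ (-l) * u ^ (-2 * σ - 1)) (Ioi a) ∧
    ∫ u in Ioi a, (u / n) ^ (-l) * u ^ (-2 * σ - 1) = (n : ℝ) ^ l * a ^ (-l - 2 * σ) / (l + 2 * σ) := by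
  have hn0 : (0:ℝ) < n := by exact_mod_cast hn
  have e : EqOn (fun u : ℝ => (u / n) ^ (-l) * u ^ (-2 * σ - 1))
      (fun u : ℝ => (n : ℝ) ^ l * u ^ (-l - 2 * σ - 1)) (Ioi a) := by
    intro u hu
    have hu0 : 0 < u := lt_trans ha hu
    simp only
    rw [Real.div_rpow hu0.le hn0.le, Real.rpow_neg hn0.le, div_inv_eq_mul, mul_comm (u ^ (-l)), mul_assoc,
      ← Real.rpow_add hu0]
    congr 2
    ring
  have hI : IntegrableOn (fun u : ℝ => u ^ (-l - 2 * σ - 1)) (Ioi a) :=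
    integrableOn_Ioi_rpow_of_lt (by linarith) ha
  refine ⟨IntegrableOn.congr_fun (hI.const_mul _) e.symm measurableSet_Ioi, ?_⟩
  rw [setIntegral_congr_fun measurableSet_Ioi e, integral_const_mul, integral_Ioi_rpow_of_lt (by linarith) ha]
  have e1 : -l - 2 * σ - 1 + 1 = -(l + 2 * σ) := by ring
  rw [e1, neg_div_neg_eq, show -l - 2 * σ = -(l + 2 * σ) by ring]
  ring

lemma pw_zero {z : ℂ} {n : ℕ} (hn : 1 ≤ n) {u : ℝ} (hu : u < n) : pw z (u / n) = 0 := by
  have hn0 : (0:ℝ) < n := by exact_mod_cast hn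
  unfold pw
  rw [if_neg]
  rw [not_le, div_lt_one hn0]
  exact hu

lemma norm_pwn {z : ℂ} {n : ℕ} (hn : 1 ≤ n) {u : ℝ} (hu : (n:ℝ) ≤ u) : ‖pw z (u / n)‖ = (u / n) ^ (-z.re) := by
  have hn0 : (0:ℝ) < n := by exact_mod_cast hn
  exact norm_pw ((one_le_div hn0).2 hu)

/-- a function dominated by `A (u/n)^(-l)` on `[n, n+1)` and by `B (u/n)^(-l)` on `[n+1, ∞)`. -/
lemma int_bound {F : ℝ → ℝ} {l σ A B : ℝ} {n : ℕ} (hn : 1 ≤ n) (hl : 0 < l) (hσ : 0 < σ) (hA : 0 ≤ A) (_hB : 0 ≤ B)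
    (h0 : ∀ u : ℝ, u < n → F u = 0) (h1 : ∀ u : ℝ, (n:ℝ) ≤ u → u < n + 1 → |F u| ≤ A * (u / n) ^ (-l))
    (h2 : ∀ u : ℝ, (n:ℝ) + 1 ≤ u → |F u| ≤ B * (u / n) ^ (-l)) :
    |∫ u in Ioi (0:ℝ), F u * u ^ (-2 * σ - 1)| ≤
      (A * (n : ℝ) ^ (-2 * σ) + B * ((n : ℝ) ^ l * ((n:ℝ) + 1) ^ (-l - 2 * σ))) / (l + 2 * σ) := by
  have hn0 : (0:ℝ) < n := by exact_mod_cast hn
  have j1 := jint (a := n) hn hl hσ hn0
  have j2 := jint (a := n + 1) hn hl hσ (by linarith)
  set g : ℝ → ℝ := fun u => (Ioi (n:ℝ)).indicator (fun u => A * ((u / n) ^ (-l) * u ^ (-2 * σ - 1))) u +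
    (Ioi ((n:ℝ) + 1)).indicator (fun u => B * ((u / n) ^ (-l) * u ^ (-2 * σ - 1))) u with hg
  have i1 : IntegrableOn ((Ioi (n:ℝ)).indicator (fun u => A * ((u / n) ^ (-l) * u ^ (-2 * σ - 1)))) (Ioi 0) := by
    rw [integrableOn_indicator_iff measurableSet_Ioi]
    exact IntegrableOn.mono_set (j1.1.const_mul A) inter_subset_left
  have i2 : IntegrableOn ((Ioi ((n:ℝ) + 1)).indicator (fun u => B * ((u / n) ^ (-l) * u ^ (-2 * σ - 1)))) (Ioi 0) := by
    rw [integrableOn_indicator_iff measurableSet_Ioi]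
    exact IntegrableOn.mono_set (j2.1.const_mul B) inter_subset_left
  have hpt : ∀ᵐ u ∂(volume.restrict (Ioi (0:ℝ))), ‖F u * u ^ (-2 * σ - 1)‖ ≤ g u := by
    have hne : ∀ᵐ u ∂(volume.restrict (Ioi (0:ℝ))), u ≠ (n:ℝ) ∧ u ≠ (n:ℝ) + 1 :=
      ae_restrict_of_ae ((Measure.ae_ne volume _).and (Measure.ae_ne volume _))
    filter_upwards [ae_restrict_mem measurableSet_Ioi, hne] with u hu hun
    have hu0 : (0:ℝ) < u := hu
    have hp : 0 ≤ u ^ (-2 * σ - 1) := Real.rpow_nonneg hu0.le _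
    have hp2 : 0 ≤ (u / n) ^ (-l) := Real.rpow_nonneg (by positivity) _
    rw [norm_mul, Real.norm_eq_abs, Real.norm_of_nonneg hp, hg]
    simp only
    by_cases c1 : u < n
    · rw [h0 u c1, indicator_of_notMem (by simp; linarith), indicator_of_notMem (by simp; linarith)]
      simp
    · have c1' : (n:ℝ) < u := lt_of_le_of_ne (not_lt.1 c1) (Ne.symm hun.1)
      rw [indicator_of_mem (mem_Ioi.2 c1')]
      by_cases c2 : u < n + 1
      · rw [indicator_of_notMem (by simp; linarith), add_zero, ← mul_assoc]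
        exact mul_le_mul_of_nonneg_right (h1 u c1'.le c2) hp
      · have c2' : (n:ℝ) + 1 < u := lt_of_le_of_ne (not_lt.1 c2) (Ne.symm hun.2)
        rw [indicator_of_mem (mem_Ioi.2 c2')]
        have h3 := mul_le_mul_of_nonneg_right (h2 u c2'.le) hp
        have h4 : 0 ≤ A * ((u / n) ^ (-l) * u ^ (-2 * σ - 1)) := by positivity
        calc |F u| * u ^ (-2 * σ - 1) ≤ B * (u / n) ^ (-l) * u ^ (-2 * σ - 1) := h3
          _ ≤ _ := by
            rw [mul_assoc]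
            linarith
  have h5 := norm_integral_le_of_norm_le (i1.add i2) hpt
  rw [Real.norm_eq_abs] at h5
  refine h5.trans (le_of_eq ?_)
  change ∫ u in Ioi (0:ℝ), g u = _
  have h6 : ∫ u in Ioi (0:ℝ), g u = (∫ u in Ioi (0:ℝ), (Ioi (n:ℝ)).indicator
      (fun u => A * ((u / n) ^ (-l) * u ^ (-2 * σ - 1))) u) + ∫ u in Ioi (0:ℝ), (Ioi ((n:ℝ) + 1)).indicator
      (fun u => B * ((u / n) ^ (-l) * u ^ (-2 * σ - 1))) u := integral_add i1 i2
  rw [h6, setIntegral_indicator measurableSet_Ioi, setIntegral_indicator measurableSet_Ioi,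
    Ioi_inter_Ioi, Ioi_inter_Ioi, max_eq_right hn0.le, max_eq_right (by linarith : (0:ℝ) ≤ n + 1),
    integral_const_mul, integral_const_mul, j1.2, j2.2]
  have e1 : (n : ℝ) ^ l * (n : ℝ) ^ (-l - 2 * σ) = (n : ℝ) ^ (-2 * σ) := by
    rw [← Real.rpow_add hn0]
    congr 1
    ring
  rw [e1]
  ring

lemma bil_diag {z : ℂ} (hz : 0 < z.re) {σ : ℝ} (hσ : 0 < σ) {n : ℕ} (hn : 1 ≤ n) :
    2 * (z.re + σ) * bil σ (fun u => pw z (u / n)) (fun u => pw z (u / n)) = (n : ℝ) ^ (-2 * σ) := by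
  have hn0 : (0:ℝ) < n := by exact_mod_cast hn
  have j1 := jint (l := 2 * z.re) (a := n) hn (by linarith) hσ hn0
  have e : ∀ u ∈ Ioi (0:ℝ), (pw z (u / n) * (starRingEnd ℂ) (pw z (u / n))).re * u ^ (-2 * σ - 1) =
      (Ici (n:ℝ)).indicator (fun u => (u / n) ^ (-(2 * z.re)) * u ^ (-2 * σ - 1)) u := by
    intro u hu
    have hu0 : (0:ℝ) < u := hu
    by_cases h : (n:ℝ) ≤ u
    · rw [indicator_of_mem (mem_Ici.2 h), ← normsq82, norm_pwn hn h, ← Real.rpow_natCast, ← Real.rpow_mul (by positivity)]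
      congr 2
      push_cast
      ring
    · rw [indicator_of_notMem (fun h' => h (mem_Ici.1 h')), pw_zero hn (not_le.1 h)]
      simp
  unfold bil
  rw [setIntegral_congr_fun measurableSet_Ioi e, setIntegral_indicator measurableSet_Ici]
  have : Ioi (0:ℝ) ∩ Ici (n:ℝ) = Ici (n:ℝ) := inter_eq_right.2 fun x hx => lt_of_lt_of_le hn0 hx
  rw [this, integral_Ici_eq_integral_Ioi, j1.2]
  have e1 : (n : ℝ) ^ (2 * z.re) * (n : ℝ) ^ (-(2 * z.re) - 2 * σ) = (n : ℝ) ^ (-2 * σ) := by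
    rw [← Real.rpow_add hn0]
    congr 1
    ring
  rw [e1]
  have : (0:ℝ) < 2 * z.re + 2 * σ := by linarith
  field_simp

lemma pow_ratio {l : ℝ} (hl : 0 ≤ l) {m n N : ℕ} (hm : 1 ≤ m) (hmn : m < n) (hN : n ≤ N) :
    ((m : ℝ) / n) ^ l ≤ Real.exp (-(l / N)) := by
  have hn0 : (0:ℝ) < n := by exact_mod_cast (lt_of_lt_of_le hm hmn.le : 0 < n)
  have hm0 : (0:ℝ) < m := by exact_mod_cast hm
  have hN0 : (0:ℝ) < N := lt_of_lt_of_le hn0 (by exact_mod_cast hN)
  have h1 : (m:ℝ) ≤ n - 1 := by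
    have : m + 1 ≤ n := hmn
    have h2 : ((m + 1 : ℕ) : ℝ) ≤ n := by exact_mod_cast this
    push_cast at h2
    linarith
  have h2 : (m:ℝ) / n ≤ 1 - 1 / N := by
    rw [div_le_iff₀ hn0]
    have h3 : (1:ℝ) / N * n ≤ 1 := by
      rw [one_div, inv_mul_le_one₀ hN0]
      exact_mod_cast hN
    nlinarith
  have h3 : (1:ℝ) - 1 / N ≤ Real.exp (-(1 / N)) := by
    have := Real.add_one_le_exp (-(1 / (N:ℝ)))
    linarith
  calc ((m : ℝ) / n) ^ l ≤ (Real.exp (-(1 / N))) ^ l :=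
        Real.rpow_le_rpow (by positivity) (h2.trans h3) hl
    _ = Real.exp (-(l / N)) := by
        rw [← Real.exp_mul]
        congr 1
        ring

lemma bil_off {z : ℂ} (hz : 0 < z.re) {σ : ℝ} (hσ : 0 < σ) {m n N : ℕ} (hm : 1 ≤ m) (hmn : m < n) (hN : n ≤ N) :
    |2 * (z.re + σ) * bil σ (fun u => pw z (u / m)) (fun u => pw z (u / n))| ≤ Real.exp (-(z.re / N)) := by
  have hn : 1 ≤ n := lt_of_lt_of_le hm hmn.le
  have hn0 : (0:ℝ) < n := by exact_mod_cast hn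
  have hn1 : (1:ℝ) ≤ n := by exact_mod_cast hn
  have hm0 : (0:ℝ) < m := by exact_mod_cast hm
  have hmn' : (m:ℝ) < n := by exact_mod_cast hmn
  have key : ∀ u : ℝ, (n:ℝ) ≤ u → |(pw z (u / m) * (starRingEnd ℂ) (pw z (u / n))).re| ≤
      ((m:ℝ) / n) ^ z.re * (u / n) ^ (-(2 * z.re)) := by
    intro u hu
    have hu0 : 0 < u := lt_of_lt_of_le hn0 hu
    refine (Complex.abs_re_le_norm _).trans (le_of_eq ?_)
    rw [norm_mul, RCLike.norm_conj, norm_pwn hn hu, norm_pwn hm (hmn'.le.trans hu)]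
    rw [Real.div_rpow hu0.le hm0.le, Real.div_rpow hu0.le hn0.le, Real.div_rpow hu0.le hn0.le,
      Real.div_rpow hm0.le hn0.le]
    have e1 : ∀ x : ℝ, 0 < x → x ^ (-(2 * z.re)) = x ^ (-z.re) * x ^ (-z.re) := fun x hx => by
      rw [← Real.rpow_add hx]
      congr 1
      ring
    rw [e1 u hu0, e1 n hn0, Real.rpow_neg hm0.le, Real.rpow_neg hn0.le]
    have h1 : 0 < (m:ℝ) ^ z.re := Real.rpow_pos_of_pos hm0 _
    have h2 : 0 < (n:ℝ) ^ z.re := Real.rpow_pos_of_pos hn0 _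
    field_simp
  have hb2 : |bil σ (fun u => pw z (u / m)) (fun u => pw z (u / n))| ≤
      ((m:ℝ) / n) ^ z.re * (n : ℝ) ^ (-2 * σ) / (2 * z.re + 2 * σ) := by
    have j1 := jint (l := 2 * z.re) (a := n) hn (by linarith) hσ hn0
    have i1 : IntegrableOn ((Ioi (n:ℝ)).indicator (fun u : ℝ => ((m:ℝ) / n) ^ z.re *
        ((u / n) ^ (-(2 * z.re)) * u ^ (-2 * σ - 1)))) (Ioi 0) := by
      rw [integrableOn_indicator_iff measurableSet_Ioi]
      exact IntegrableOn.mono_set (j1.1.const_mul _) inter_subset_left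
    have hpt : ∀ᵐ u ∂(volume.restrict (Ioi (0:ℝ))),
        ‖(pw z (u / m) * (starRingEnd ℂ) (pw z (u / n))).re * u ^ (-2 * σ - 1)‖ ≤
        (Ioi (n:ℝ)).indicator (fun u : ℝ => ((m:ℝ) / n) ^ z.re * ((u / n) ^ (-(2 * z.re)) * u ^ (-2 * σ - 1))) u := by
      have hne : ∀ᵐ u ∂(volume.restrict (Ioi (0:ℝ))), u ≠ (n:ℝ) := ae_restrict_of_ae (Measure.ae_ne volume _)
      filter_upwards [ae_restrict_mem measurableSet_Ioi, hne] with u hu hun
      have hu0 : (0:ℝ) < u := hu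
      have hp : 0 ≤ u ^ (-2 * σ - 1) := Real.rpow_nonneg hu0.le _
      rw [norm_mul, Real.norm_eq_abs, Real.norm_of_nonneg hp]
      by_cases c1 : u < n
      · rw [indicator_of_notMem (by simp; linarith), pw_zero hn c1]
        simp
      · have c1' : (n:ℝ) < u := lt_of_le_of_ne (not_lt.1 c1) (Ne.symm hun)
        rw [indicator_of_mem (mem_Ioi.2 c1'), ← mul_assoc]
        exact mul_le_mul_of_nonneg_right (key u c1'.le) hp
    have h5 := norm_integral_le_of_norm_le i1 hpt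
    rw [Real.norm_eq_abs] at h5
    refine h5.trans (le_of_eq ?_)
    rw [setIntegral_indicator measurableSet_Ioi, Ioi_inter_Ioi, max_eq_right hn0.le, integral_const_mul, j1.2]
    have e1 : (n : ℝ) ^ (2 * z.re) * (n : ℝ) ^ (-(2 * z.re) - 2 * σ) = (n : ℝ) ^ (-2 * σ) := by
      rw [← Real.rpow_add hn0]
      congr 1
      ring
    rw [e1]
    ring
  rw [abs_mul, abs_of_pos (by linarith : (0:ℝ) < 2 * (z.re + σ))]
  have hr := pow_ratio hz.le hm hmn hN
  have h1 : (n : ℝ) ^ (-2 * σ) ≤ 1 := Real.rpow_le_one_of_one_le_of_nonpos hn1 (by linarith)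
  have h2 : 0 ≤ (n : ℝ) ^ (-2 * σ) := Real.rpow_nonneg hn0.le _
  have h3 : (0:ℝ) ≤ ((m:ℝ) / n) ^ z.re := Real.rpow_nonneg (by positivity) _
  calc 2 * (z.re + σ) * |bil σ (fun u => pw z (u / m)) (fun u => pw z (u / n))|
      ≤ 2 * (z.re + σ) * (((m:ℝ) / n) ^ z.re * (n : ℝ) ^ (-2 * σ) / (2 * z.re + 2 * σ)) :=
        mul_le_mul_of_nonneg_left hb2 (by linarith)
    _ = ((m:ℝ) / n) ^ z.re * (n : ℝ) ^ (-2 * σ) := by
        have : (0:ℝ) < 2 * z.re + 2 * σ := by linarith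
        field_simp
    _ ≤ ((m:ℝ) / n) ^ z.re * 1 := mul_le_mul_of_nonneg_left h1 h3
    _ ≤ _ := by rw [mul_one]; exact hr

lemma bil_comm (σ : ℝ) (F G : ℝ → ℂ) : bil σ F G = bil σ G F := by
  unfold bil
  refine integral_congr_ae (Eventually.of_forall fun u => ?_)
  simp only [Complex.mul_re, Complex.conj_re, Complex.conj_im]
  ring

/-- the diagonal part of `ρ_z(u/h)` against `pw z (u/n)` -/
lemma rest_near {z : ℂ} (hz : 0 < z.re) {h n N : ℕ} (hh : 1 ≤ h) (hn : 1 ≤ n) (hN : n ≤ N) {u : ℝ} (hu : (n:ℝ) ≤ u)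
    (hu1 : u < n + 1) : ‖rho z (u / h) - (if h ∣ n then pw z (u / n) else 0)‖ ≤
      N * Real.exp (-(z.re / N)) + (n + 1) / z.re := by
  have hh0 : (0:ℝ) < h := by exact_mod_cast hh
  have hh1 : (1:ℝ) ≤ h := by exact_mod_cast hh
  have hn0 : (0:ℝ) < n := by exact_mod_cast hn
  have hu0 : 0 < u := lt_of_lt_of_le hn0 hu
  have hN0 : (0:ℝ) < N := lt_of_lt_of_le hn0 (by exact_mod_cast hN)
  have hfl : ⌊u / h⌋₊ = n / h := by
    rw [Nat.floor_div_natCast]
    congr 1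
    rw [Nat.floor_eq_iff hu0.le]
    exact ⟨hu, hu1⟩
  have hterm : ∀ m ∈ Finset.Icc 1 (n / h), m * h ≠ n → ‖(((m : ℝ) / (u / h) : ℝ) : ℂ) ^ z‖ ≤ Real.exp (-(z.re / N)) := by
    intro m hm hne
    have hm1 := (Finset.mem_Icc.1 hm).1
    have hm2 : m * h ≤ n := (Nat.le_div_iff_mul_le (by omega)).1 (Finset.mem_Icc.1 hm).2
    have hm3 : m * h < n := lt_of_le_of_ne hm2 hne
    have hmh : 1 ≤ m * h := Nat.mul_pos hm1 hh
    have hm0 : (0:ℝ) < m := by exact_mod_cast hm1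
    rw [norm_cpow_eq_rpow_re_of_pos (by positivity)]
    refine le_trans (Real.rpow_le_rpow (by positivity) ?_ hz.le) (pow_ratio hz.le hmh hm3 hN)
    push_cast
    rw [div_div_eq_mul_div]
    exact div_le_div_of_nonneg_left (by positivity) hn0 hu
  have hsum : ‖∑ m ∈ Finset.Icc 1 ⌊u / (h:ℝ)⌋₊, (((m : ℝ) / (u / h) : ℝ) : ℂ) ^ z -
      (if h ∣ n then pw z (u / n) else 0)‖ ≤ N * Real.exp (-(z.re / N)) := by
    rw [hfl]
    have hcard : ((n / h : ℕ) : ℝ) ≤ N := by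
      have : n / h ≤ N := (Nat.div_le_self _ _).trans hN
      exact_mod_cast this
    have hE : 0 ≤ Real.exp (-(z.re / N)) := (Real.exp_pos _).le
    by_cases hd : h ∣ n
    · rw [if_pos hd]
      have hmem : n / h ∈ Finset.Icc 1 (n / h) := by
        rw [Finset.mem_Icc]
        exact ⟨Nat.div_pos (Nat.le_of_dvd (by omega) hd) (by omega), le_rfl⟩
      rw [← Finset.add_sum_erase _ _ hmem]
      have e0 : ((((n / h : ℕ) : ℝ) / (u / h) : ℝ) : ℂ) ^ z = pw z (u / n) := by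
        unfold pw
        rw [if_pos ((one_le_div hn0).2 hu), Nat.cast_div hd hh0.ne']
        have e1 : (n:ℝ) / h / (u / h) = (u / n)⁻¹ := by
          field_simp
        rw [e1, Complex.ofReal_inv, Complex.inv_cpow, Complex.cpow_neg]
        rw [Complex.arg_ofReal_of_nonneg (by positivity)]
        exact Real.pi_pos.ne
      rw [e0, add_sub_cancel_left]
      refine (norm_sum_le _ _).trans ?_
      calc ∑ m ∈ (Finset.Icc 1 (n / h)).erase (n / h), ‖(((m : ℝ) / (u / h) : ℝ) : ℂ) ^ z‖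
          ≤ ∑ m ∈ (Finset.Icc 1 (n / h)).erase (n / h), Real.exp (-(z.re / N)) := by
            refine Finset.sum_le_sum fun m hm => hterm m (Finset.mem_of_mem_erase hm) fun h' => ?_
            have h2 := Finset.ne_of_mem_erase hm
            exact h2 (by rw [← h', Nat.mul_div_cancel _ (by omega)])
        _ = ((Finset.Icc 1 (n / h)).erase (n / h)).card * Real.exp (-(z.re / N)) := by
            rw [Finset.sum_const, nsmul_eq_mul]
        _ ≤ N * Real.exp (-(z.re / N)) := by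
            refine mul_le_mul_of_nonneg_right (le_trans ?_ hcard) hE
            have := Finset.card_erase_le (s := Finset.Icc 1 (n / h)) (a := n / h)
            rw [Nat.card_Icc] at this
            exact_mod_cast (this.trans (by omega))
    · rw [if_neg hd, sub_zero]
      refine (norm_sum_le _ _).trans ?_
      calc ∑ m ∈ Finset.Icc 1 (n / h), ‖(((m : ℝ) / (u / h) : ℝ) : ℂ) ^ z‖
          ≤ ∑ m ∈ Finset.Icc 1 (n / h), Real.exp (-(z.re / N)) := by
            refine Finset.sum_le_sum fun m hm => hterm m hm fun h' => hd ⟨m, by rw [← h', mul_comm]⟩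
        _ = ((n / h : ℕ) : ℝ) * Real.exp (-(z.re / N)) := by
            rw [Finset.sum_const, nsmul_eq_mul, Nat.card_Icc]
            simp
        _ ≤ N * Real.exp (-(z.re / N)) := mul_le_mul_of_nonneg_right hcard hE
  have hsec : ‖((u / h : ℝ) : ℂ) / (z + 1)‖ ≤ (n + 1) / z.re := by
    rw [norm_div, Complex.norm_real, Real.norm_of_nonneg (by positivity)]
    have h2 : z.re ≤ ‖z + 1‖ := by
      refine le_trans ?_ (Complex.re_le_norm _)
      rw [Complex.add_re, Complex.one_re]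
      linarith
    refine div_le_div₀ (by positivity) ?_ hz h2
    exact (div_le_self hu0.le hh1).trans hu1.le
  unfold rho
  have e : ∑ m ∈ Finset.Icc 1 ⌊u / (h:ℝ)⌋₊, (((m : ℝ) / (u / h) : ℝ) : ℂ) ^ z - ((u / h : ℝ) : ℂ) / (z + 1) -
      (if h ∣ n then pw z (u / n) else 0) = (∑ m ∈ Finset.Icc 1 ⌊u / (h:ℝ)⌋₊, (((m : ℝ) / (u / h) : ℝ) : ℂ) ^ z -
      (if h ∣ n then pw z (u / n) else 0)) - ((u / h : ℝ) : ℂ) / (z + 1) := by ring
  rw [e]
  exact (norm_sub_le _ _).trans (add_le_add hsum hsec)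

/-- the cross terms -/
lemma bil_cross {z : ℂ} (hz : 1 ≤ z.re) {σ : ℝ} (hσ : 1 / 2 < σ) (hσ1 : σ < 1) {h n N : ℕ} (hh : 1 ≤ h) (hn : 1 ≤ n)
    (hN : n ≤ N) :
    |2 * (z.re + σ) * bil σ (fun u => rho z (u / h)) (fun u => pw z (u / n)) -
      (if h ∣ n then (n : ℝ) ^ (-2 * σ) else 0)| ≤
      4 / z.re + (2 * N + 2 * (2 + ‖z‖ / z.re)) * Real.exp (-(z.re / (N + 1))) := by
  have hz0 : 0 < z.re := by linarith
  have hσ0 : 0 < σ := by linarith
  have hh0 : (0:ℝ) < h := by exact_mod_cast hh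
  have hn0 : (0:ℝ) < n := by exact_mod_cast hn
  have hn1 : (1:ℝ) ≤ n := by exact_mod_cast hn
  have hN0 : (0:ℝ) < N := lt_of_lt_of_le hn0 (by exact_mod_cast hN)
  set F : ℝ → ℝ := fun u => ((rho z (u / h) - (if h ∣ n then pw z (u / n) else 0)) *
    (starRingEnd ℂ) (pw z (u / n))).re with hF
  have e1 : 2 * (z.re + σ) * bil σ (fun u => rho z (u / h)) (fun u => pw z (u / n)) -
      (if h ∣ n then (n : ℝ) ^ (-2 * σ) else 0) = 2 * (z.re + σ) * ∫ u in Ioi (0:ℝ), F u * u ^ (-2 * σ - 1) := by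
    have i1 := (nice_rho hz0 hh).mulI (nice_pw hz0 hn) hσ0 hσ1
    have i2 := (nice_pw hz0 hn).mulI (nice_pw hz0 hn) hσ0 hσ1
    by_cases hd : h ∣ n
    · rw [if_pos hd, ← bil_diag hz0 hσ0 hn, ← mul_sub]
      congr 1
      unfold bil
      rw [← integral_sub i1 i2]
      refine integral_congr_ae (Eventually.of_forall fun u => ?_)
      simp only [hF, if_pos hd]
      rw [sub_mul, Complex.sub_re, sub_mul]
    · rw [if_neg hd, sub_zero]
      congr 1
      unfold bil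
      refine integral_congr_ae (Eventually.of_forall fun u => ?_)
      simp only [hF, if_neg hd, sub_zero]
  rw [e1]
  have hA : 0 ≤ N * Real.exp (-(z.re / N)) + (n + 1) / z.re := by positivity
  have hB : 0 ≤ 2 + ‖z‖ / z.re := by positivity
  have hb := int_bound (F := F) (l := z.re) (σ := σ) hn hz0 hσ0 hA hB
    (fun u hu => by simp only [hF]; rw [pw_zero hn hu]; simp)
    (fun u hu hu1 => by
      refine (Complex.abs_re_le_norm _).trans ?_
      have hu0 : 0 < u := by linarith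
      rw [norm_mul, RCLike.norm_conj, norm_pwn hn hu]
      exact mul_le_mul_of_nonneg_right (rest_near hz0 hh hn hN hu hu1) (Real.rpow_nonneg (by positivity) _))
    (fun u hu => by
      have hu0 : 0 < u := by linarith
      refine (Complex.abs_re_le_norm _).trans ?_
      rw [norm_mul, RCLike.norm_conj, norm_pwn hn (by linarith)]
      refine mul_le_mul_of_nonneg_right ?_ (Real.rpow_nonneg (by positivity) _)
      have h1 := norm_rho_le hz0 (x := u / h) (by positivity)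
      have h2 : ‖(if h ∣ n then pw z (u / n) else 0)‖ ≤ 1 := by
        split_ifs
        · exact norm_pw_le hz0 _
        · simp
      refine (norm_sub_le _ _).trans ?_
      linarith)
  rw [abs_mul, abs_of_pos (by linarith : (0:ℝ) < 2 * (z.re + σ))]
  have hd : 0 < z.re + 2 * σ := by linarith
  have hr : 2 * (z.re + σ) / (z.re + 2 * σ) ≤ 2 := by
    rw [div_le_iff₀ hd]
    linarith
  have hr0 : 0 ≤ 2 * (z.re + σ) / (z.re + 2 * σ) := by positivity
  have n1 : (n : ℝ) ^ (-2 * σ) ≤ 1 / n := by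
    rw [one_div, ← Real.rpow_neg_one]
    exact Real.rpow_le_rpow_of_exponent_le hn1 (by linarith)
  have n0 : 0 ≤ (n : ℝ) ^ (-2 * σ) := Real.rpow_nonneg hn0.le _
  have hEN : Real.exp (-(z.re / N)) ≤ Real.exp (-(z.re / (N + 1))) := by
    apply Real.exp_le_exp.2
    rw [neg_le_neg_iff]
    exact div_le_div_of_nonneg_left hz0.le hN0 (by linarith)
  have p1 : (N * Real.exp (-(z.re / N)) + (n + 1) / z.re) * (n : ℝ) ^ (-2 * σ) ≤
      N * Real.exp (-(z.re / (N + 1))) + 2 / z.re := by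
    have q1 : N * Real.exp (-(z.re / N)) * (n : ℝ) ^ (-2 * σ) ≤ N * Real.exp (-(z.re / (N + 1))) := by
      have : (n : ℝ) ^ (-2 * σ) ≤ 1 := Real.rpow_le_one_of_one_le_of_nonpos hn1 (by linarith)
      calc N * Real.exp (-(z.re / N)) * (n : ℝ) ^ (-2 * σ) ≤ N * Real.exp (-(z.re / N)) * 1 :=
            mul_le_mul_of_nonneg_left this (by positivity)
        _ ≤ _ := by
            rw [mul_one]
            exact mul_le_mul_of_nonneg_left hEN hN0.le
    have q2 : ((n:ℝ) + 1) / z.re * (n : ℝ) ^ (-2 * σ) ≤ 2 / z.re := by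
      calc ((n:ℝ) + 1) / z.re * (n : ℝ) ^ (-2 * σ) ≤ ((n:ℝ) + 1) / z.re * (1 / n) :=
            mul_le_mul_of_nonneg_left n1 (by positivity)
        _ = ((n + 1) / n) / z.re := by ring
        _ ≤ 2 / z.re := by
            refine div_le_div_of_nonneg_right ?_ hz0.le
            rw [div_le_iff₀ hn0]
            linarith
    rw [add_mul]
    linarith
  have p2 : (2 + ‖z‖ / z.re) * ((n : ℝ) ^ z.re * ((n:ℝ) + 1) ^ (-z.re - 2 * σ)) ≤
      (2 + ‖z‖ / z.re) * Real.exp (-(z.re / (N + 1))) := by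
    refine mul_le_mul_of_nonneg_left ?_ hB
    have q1 : ((n:ℝ) + 1) ^ (-z.re - 2 * σ) ≤ ((n:ℝ) + 1) ^ (-z.re) :=
      Real.rpow_le_rpow_of_exponent_le (by linarith) (by linarith)
    calc (n : ℝ) ^ z.re * ((n:ℝ) + 1) ^ (-z.re - 2 * σ) ≤ (n : ℝ) ^ z.re * ((n:ℝ) + 1) ^ (-z.re) :=
          mul_le_mul_of_nonneg_left q1 (Real.rpow_nonneg hn0.le _)
      _ = ((n:ℝ) / ((n + 1 : ℕ) : ℝ)) ^ z.re := by
          push_cast
          rw [Real.div_rpow hn0.le (by linarith), Real.rpow_neg (by linarith)]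
          rfl
      _ ≤ _ := by
          have := pow_ratio hz0.le hn (Nat.lt_succ_self n) (Nat.succ_le_succ hN)
          push_cast at this ⊢
          exact this
  calc 2 * (z.re + σ) * |∫ u in Ioi (0:ℝ), F u * u ^ (-2 * σ - 1)|
      ≤ 2 * (z.re + σ) * (((N * Real.exp (-(z.re / N)) + (n + 1) / z.re) * (n : ℝ) ^ (-2 * σ) +
        (2 + ‖z‖ / z.re) * ((n : ℝ) ^ z.re * ((n:ℝ) + 1) ^ (-z.re - 2 * σ))) / (z.re + 2 * σ)) :=
        mul_le_mul_of_nonneg_left hb (by linarith)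
    _ = 2 * (z.re + σ) / (z.re + 2 * σ) * ((N * Real.exp (-(z.re / N)) + (n + 1) / z.re) * (n : ℝ) ^ (-2 * σ) +
        (2 + ‖z‖ / z.re) * ((n : ℝ) ^ z.re * ((n:ℝ) + 1) ^ (-z.re - 2 * σ))) := by ring
    _ ≤ 2 * (N * Real.exp (-(z.re / (N + 1))) + 2 / z.re + (2 + ‖z‖ / z.re) * Real.exp (-(z.re / (N + 1)))) := by
        refine mul_le_mul hr (add_le_add p1 p2) (by positivity) (by norm_num)
    _ = _ := by ring

end Pool.Agent.Helper82.RG
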