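import Pool.Agent.Helper82.RG.Mel
import Pool.Agent.Helper57.ED.CoA
import Pool.Agent.Helper57.ED.GcA

/-!
# RG: mean squares of `ζ B - C` on a line: the function `G`
-/

open MeasureTheory Set Filter Topology Complex
open Pool.Agent.Helper57.Zeta Pool.Agent.Helper57.LH Pool.Agent.Helper57.ED

namespace Pool.Agent.Helper82.RG

/-- the polynomial part -/
noncomputable def qf (N : ℕ) (c : ℕ → ℝ) (z : ℂ) (u : ℝ) : ℂ :=
  ∑ n ∈ Finset.Icc 1 N, (c n : ℂ) * pw z (u / n)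

/-- Mellin original of `(ζ B - C)/(s + z)` -/
noncomputable def Gf (X N : ℕ) (b c : ℕ → ℝ) (z : ℂ) (u : ℝ) : ℂ := fu X b z u - qf N c z u

private lemma scale82 {s z : ℂ} {h : ℕ} (hh : 1 ≤ h) {u : ℝ} (hu : 0 < u) :
    rho z (u / h) * (u : ℂ) ^ (-s - 1) =
      (h : ℂ) ^ (-s - 1) * (fun x : ℝ => rho z x * (x : ℂ) ^ (-s - 1)) ((h : ℝ)⁻¹ * u) := by
  have hh0 : (0:ℝ) < h := by exact_mod_cast hh
  have e1 : (u : ℂ) = ((h : ℝ) : ℂ) * (((h : ℝ)⁻¹ * u : ℝ) : ℂ) := by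
    rw [← Complex.ofReal_mul, mul_inv_cancel_left₀ hh0.ne']
  have e2 : (u : ℂ) ^ (-s - 1) = ((h : ℝ) : ℂ) ^ (-s - 1) * (((h : ℝ)⁻¹ * u : ℝ) : ℂ) ^ (-s - 1) := by
    conv_lhs => rw [e1]
    exact Complex.mul_cpow_ofReal_nonneg hh0.le (by positivity) _
  simp only
  rw [e2, show u / (h : ℝ) = (h : ℝ)⁻¹ * u by rw [div_eq_inv_mul]]
  push_cast
  ring

private lemma mellin_one82 {z : ℂ} (hz : 0 < z.re) {s : ℂ} (hs : 0 < s.re) (hs1 : s.re < 1) {h : ℕ}
    (hh : 1 ≤ h) :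
    IntegrableOn (fun u : ℝ => rho z (u / h) * (u : ℂ) ^ (-s - 1)) (Ioi 0) ∧
    ∫ u in Ioi (0:ℝ), rho z (u / h) * (u : ℂ) ^ (-s - 1) =
      (h : ℂ) ^ (-s) * (riemannZeta s / (s + z)) := by
  have hh0 : (0:ℝ) < h := by exact_mod_cast hh
  have hhi : (0:ℝ) < (h : ℝ)⁻¹ := inv_pos.2 hh0
  set F : ℝ → ℂ := fun x : ℝ => rho z x * (x : ℂ) ^ (-s - 1) with hF
  have hI : IntegrableOn F (Ioi 0) := integrable_rho hz hs hs1
  have hI2 : IntegrableOn (fun u => F ((h : ℝ)⁻¹ * u)) (Ioi 0) := by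
    rw [integrableOn_Ioi_comp_mul_left_iff F 0 hhi, mul_zero]
    exact hI
  have heq : EqOn (fun u : ℝ => (h : ℂ) ^ (-s - 1) * F ((h : ℝ)⁻¹ * u))
      (fun u : ℝ => rho z (u / h) * (u : ℂ) ^ (-s - 1)) (Ioi 0) := fun u hu =>
    (scale82 hh hu).symm
  constructor
  · have h1 : IntegrableOn (fun u : ℝ => (h : ℂ) ^ (-s - 1) * F ((h : ℝ)⁻¹ * u)) (Ioi 0) :=
      hI2.const_mul _
    exact h1.congr_fun heq measurableSet_Ioi
  · rw [← setIntegral_congr_fun measurableSet_Ioi heq, integral_const_mul,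
      integral_comp_mul_left_Ioi F 0 hhi, mul_zero, hF, mellin_rho hz hs hs1, inv_inv,
      Complex.real_smul, ← mul_assoc]
    congr 1
    have hne : (h : ℂ) ≠ 0 := by exact_mod_cast hh0.ne'
    rw [Complex.cpow_sub _ _ hne, Complex.cpow_one]
    push_cast
    field_simp

private lemma mellin_fu82 (X : ℕ) (b : ℕ → ℝ) {z : ℂ} (hz : 0 < z.re) {s : ℂ} (hs : 0 < s.re)
    (hs1 : s.re < 1) :
    IntegrableOn (fun u : ℝ => fu X b z u * (u : ℂ) ^ (-s - 1)) (Ioi 0) ∧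
    ∫ u in Ioi (0:ℝ), fu X b z u * (u : ℂ) ^ (-s - 1) =
      riemannZeta s * Mo X b s / (s + z) := by
  have e : ∀ u : ℝ, fu X b z u * (u : ℂ) ^ (-s - 1) =
      ∑ h ∈ Finset.Icc 1 X, (b h : ℂ) * (rho z (u / h) * (u : ℂ) ^ (-s - 1)) := by
    intro u
    unfold fu
    rw [Finset.sum_mul]
    exact Finset.sum_congr rfl fun h _ => by ring
  have hI : ∀ h ∈ Finset.Icc 1 X, IntegrableOn
      (fun u : ℝ => (b h : ℂ) * (rho z (u / h) * (u : ℂ) ^ (-s - 1))) (Ioi 0) := fun h hh =>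
    (mellin_one82 hz hs hs1 (Finset.mem_Icc.1 hh).1).1.const_mul _
  constructor
  · simp_rw [e]
    exact integrable_finsetSum _ hI
  · simp_rw [e]
    rw [integral_finsetSum _ hI]
    unfold Mo
    rw [mul_div_assoc, Finset.sum_div, Finset.mul_sum]
    refine Finset.sum_congr rfl fun h hh => ?_
    rw [integral_const_mul, (mellin_one82 hz hs hs1 (Finset.mem_Icc.1 hh).1).2]
    ring

private lemma mellin_qf82 (N : ℕ) (c : ℕ → ℝ) {z : ℂ} (hz : 0 < z.re) {s : ℂ} (hs : 0 < s.re) :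
    IntegrableOn (fun u : ℝ => qf N c z u * (u : ℂ) ^ (-s - 1)) (Ioi 0) ∧
    ∫ u in Ioi (0:ℝ), qf N c z u * (u : ℂ) ^ (-s - 1) = Mo N c s / (s + z) := by
  have e : ∀ u : ℝ, qf N c z u * (u : ℂ) ^ (-s - 1) =
      ∑ n ∈ Finset.Icc 1 N, (c n : ℂ) * (pw z (u / n) * (u : ℂ) ^ (-s - 1)) := by
    intro u
    unfold qf
    rw [Finset.sum_mul]
    exact Finset.sum_congr rfl fun h _ => by ring
  have hI : ∀ n ∈ Finset.Icc 1 N, IntegrableOn
      (fun u : ℝ => (c n : ℂ) * (pw z (u / n) * (u : ℂ) ^ (-s - 1))) (Ioi 0) := fun h hh =>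
    (mellin_pw hz hs (Finset.mem_Icc.1 hh).1).1.const_mul _
  constructor
  · simp_rw [e]
    exact integrable_finsetSum _ hI
  · simp_rw [e]
    rw [integral_finsetSum _ hI]
    unfold Mo
    rw [Finset.sum_div]
    refine Finset.sum_congr rfl fun h hh => ?_
    rw [integral_const_mul, (mellin_pw hz hs (Finset.mem_Icc.1 hh).1).2]
    ring

lemma nice_rho {z : ℂ} (hz : 0 < z.re) {h : ℕ} (hh : 1 ≤ h) : Nice (fun u : ℝ => rho z (u / h)) := by
  have hh1 : (1:ℝ) ≤ h := by exact_mod_cast hh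
  have hh0 : (0:ℝ) < h := by linarith
  refine ⟨(measurable_rho z).comp (measurable_id.div_const _), ⟨1 + ‖z‖ / z.re, by positivity,
    fun u hu => norm_rho_le hz (by positivity)⟩, ⟨1, zero_le_one, fun u hu hu1 => ?_⟩⟩
  have h1 : u / h ≤ u := div_le_self hu.le hh1
  rw [rho_small z (lt_of_le_of_lt h1 hu1), norm_neg, norm_div, Complex.norm_real,
    Real.norm_of_nonneg (by positivity)]
  have h2 : 1 ≤ ‖z + 1‖ := by
    refine le_trans ?_ (Complex.re_le_norm _)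
    rw [Complex.add_re, Complex.one_re]
    linarith
  rw [div_le_iff₀ (by linarith)]
  calc u / h ≤ u := h1
    _ = 1 * u * 1 := by ring
    _ ≤ 1 * u * ‖z + 1‖ := mul_le_mul_of_nonneg_left h2 (by linarith)

lemma nice_pw {z : ℂ} (hz : 0 < z.re) {n : ℕ} (hn : 1 ≤ n) : Nice (fun u : ℝ => pw z (u / n)) := by
  have hn1 : (1:ℝ) ≤ n := by exact_mod_cast hn
  refine ⟨(measurable_pw z).comp (measurable_id.div_const _), ⟨1, zero_le_one, fun u _ => norm_pw_le hz _⟩,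
    ⟨0, le_rfl, fun u hu hu1 => ?_⟩⟩
  have h1 : u / n ≤ u := div_le_self hu.le hn1
  unfold pw
  rw [if_neg (by linarith)]
  simp

lemma Nice.sub {F G : ℝ → ℂ} (hF : Nice F) (hG : Nice G) : Nice (fun u => F u - G u) := by
  obtain ⟨C, hC, hC2⟩ := hF.bd
  obtain ⟨D, hD, hD2⟩ := hF.small
  obtain ⟨C', hC', hC2'⟩ := hG.bd
  obtain ⟨D', hD', hD2'⟩ := hG.small
  refine ⟨hF.meas.sub hG.meas, ⟨C + C', by positivity, fun u hu => (norm_sub_le _ _).trans
    (add_le_add (hC2 u hu) (hC2' u hu))⟩, ⟨D + D', by positivity, fun u hu hu1 => ?_⟩⟩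
  rw [add_mul]
  exact (norm_sub_le _ _).trans (add_le_add (hD2 u hu hu1) (hD2' u hu hu1))

lemma Nice.smul {F : ℝ → ℂ} (hF : Nice F) (a : ℂ) : Nice (fun u => a * F u) := by
  obtain ⟨C, hC, hC2⟩ := hF.bd
  obtain ⟨D, hD, hD2⟩ := hF.small
  refine ⟨hF.meas.const_mul a, ⟨‖a‖ * C, by positivity, fun u hu => ?_⟩, ⟨‖a‖ * D, by positivity, fun u hu hu1 => ?_⟩⟩
  · rw [norm_mul]
    exact mul_le_mul_of_nonneg_left (hC2 u hu) (norm_nonneg _)
  · rw [norm_mul, mul_assoc]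
    exact mul_le_mul_of_nonneg_left (hD2 u hu hu1) (norm_nonneg _)

lemma Nice.sum {ι : Type*} (S : Finset ι) {F : ι → ℝ → ℂ} (hF : ∀ i ∈ S, Nice (F i)) :
    Nice (fun u => ∑ i ∈ S, F i u) := by
  classical
  induction S using Finset.induction_on with
  | empty => exact ⟨by simp, ⟨0, le_rfl, fun u _ => by simp⟩, ⟨0, le_rfl, fun u _ _ => by simp⟩⟩
  | insert a S ha ih =>
    have h1 := ih fun i hi => hF i (Finset.mem_insert_of_mem hi)
    have h2 := hF a (Finset.mem_insert_self _ _)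
    have h3 := h2.sub (h1.smul (-1))
    simp_rw [Finset.sum_insert ha]
    convert h3 using 2 with u
    ring

lemma nice_fu (X : ℕ) (b : ℕ → ℝ) {z : ℂ} (hz : 0 < z.re) : Nice (fu X b z) :=
  Nice.sum _ fun _ hh => (nice_rho hz (Finset.mem_Icc.1 hh).1).smul _

lemma nice_qf (N : ℕ) (c : ℕ → ℝ) {z : ℂ} (hz : 0 < z.re) : Nice (qf N c z) :=
  Nice.sum _ fun _ hh => (nice_pw hz (Finset.mem_Icc.1 hh).1).smul _

lemma nice_Gf (X N : ℕ) (b c : ℕ → ℝ) {z : ℂ} (hz : 0 < z.re) : Nice (Gf X N b c z) :=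
  (nice_fu X b hz).sub (nice_qf N c hz)

/-- **Plancherel for `ζ B - C`.** -/
theorem pl_Gf (X N : ℕ) (b c : ℕ → ℝ) {σ l τ R : ℝ} (hσ : 0 < σ) (hσ1 : σ < 1) (hl : 0 < l) (hR : 0 < R) :
    ∫ t in (-R)..R, PW (l + σ) (t - τ) *
        ‖riemannZeta (σ + t * I) * Mo X b (σ + t * I) - Mo N c (σ + t * I)‖ ^ 2 ≤
      2 * (l + σ) * ∫ u in Ioi (0:ℝ), ‖Gf X N b c (l - τ * I) u‖ ^ 2 * u ^ (-2 * σ - 1) := by
  have hz : 0 < ((l : ℂ) - τ * I).re := by simp; linarith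
  refine pl_gen (nice_Gf X N b c hz) hσ hσ1 hl hR fun t => ?_
  have hs : 0 < (σ + t * I : ℂ).re ∧ (σ + t * I : ℂ).re < 1 := by simp [hσ, hσ1]
  have h1 := mellin_fu82 X b hz hs.1 hs.2
  have h2 := mellin_qf82 N c hz hs.1
  have e : ∀ u : ℝ, Gf X N b c (l - τ * I) u * (u : ℂ) ^ (-(σ + t * I : ℂ) - 1) =
      fu X b (l - τ * I) u * (u : ℂ) ^ (-(σ + t * I : ℂ) - 1) -
        qf N c (l - τ * I) u * (u : ℂ) ^ (-(σ + t * I : ℂ) - 1) := fun u => by
    unfold Gf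
    ring
  simp_rw [e]
  refine ⟨h1.1.sub h2.1, ?_⟩
  rw [integral_sub h1.1 h2.1, h1.2, h2.2]
  ring

/-- products of nice functions are integrable against `u^(-2σ-1)` -/
lemma Nice.mulI {F G : ℝ → ℂ} (hF : Nice F) (hG : Nice G) {σ : ℝ} (hσ : 0 < σ) (hσ1 : σ < 1) :
    IntegrableOn (fun u : ℝ => (F u * (starRingEnd ℂ) (G u)).re * u ^ (-2 * σ - 1)) (Ioi 0) := by
  obtain ⟨C, hC, hC2⟩ := hF.bd
  obtain ⟨D, hD, hD2⟩ := hF.small
  obtain ⟨C', hC', hC2'⟩ := hG.bd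
  obtain ⟨D', hD', hD2'⟩ := hG.small
  have hm : Measurable (fun u => (F u * (starRingEnd ℂ) (G u)).re) :=
    Complex.measurable_re.comp (hF.meas.mul (Complex.continuous_conj.measurable.comp hG.meas))
  have hb : ∀ u, |(F u * (starRingEnd ℂ) (G u)).re| ≤ ‖F u‖ * ‖G u‖ := fun u => by
    refine (Complex.abs_re_le_norm _).trans ?_
    rw [norm_mul, RCLike.norm_conj]
  have := dom82 hm (C := C * C') (D := D * D') (a := 2 * σ) (by linarith) (by linarith) (fun u hu => ?_)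
    (fun u hu hu1 => ?_)
  · refine this.congr_fun (fun u _ => ?_) measurableSet_Ioi
    simp only
    congr 2
    ring
  · exact (hb u).trans (mul_le_mul (hC2 u hu) (hC2' u hu) (norm_nonneg _) hC)
  · refine (hb u).trans ?_
    calc ‖F u‖ * ‖G u‖ ≤ (D * u) * (D' * u) :=
          mul_le_mul (hD2 u hu hu1) (hD2' u hu hu1) (norm_nonneg _) (by positivity)
      _ = _ := by ring

/-- the bilinear form `∫ Re(F conj G) u^(-2σ-1)` -/
noncomputable def bil (σ : ℝ) (F G : ℝ → ℂ) : ℝ :=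
  ∫ u in Ioi (0:ℝ), (F u * (starRingEnd ℂ) (G u)).re * u ^ (-2 * σ - 1)

lemma normsq82 (a : ℂ) : ‖a‖ ^ 2 = (a * (starRingEnd ℂ) a).re := by
  rw [Complex.mul_conj, Complex.normSq_eq_norm_sq, Complex.ofReal_re]

lemma sq_expand (X N : ℕ) (b c : ℕ → ℝ) {z : ℂ} (hz : 0 < z.re) {σ : ℝ} (hσ : 0 < σ) (hσ1 : σ < 1) :
    ∫ u in Ioi (0:ℝ), ‖Gf X N b c z u‖ ^ 2 * u ^ (-2 * σ - 1) =
      (∑ h ∈ Finset.Icc 1 X, ∑ k ∈ Finset.Icc 1 X, b h * b k * Cc z σ h k) -
        2 * (∑ h ∈ Finset.Icc 1 X, ∑ n ∈ Finset.Icc 1 N, b h * c n *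
          bil σ (fun u => rho z (u / h)) (fun u => pw z (u / n))) +
        ∑ m ∈ Finset.Icc 1 N, ∑ n ∈ Finset.Icc 1 N, c m * c n *
          bil σ (fun u => pw z (u / m)) (fun u => pw z (u / n)) := by
  have e : ∀ u : ℝ, ‖Gf X N b c z u‖ ^ 2 * u ^ (-2 * σ - 1) =
      ‖fu X b z u‖ ^ 2 * u ^ (-2 * σ - 1) -
        2 * ((fu X b z u * (starRingEnd ℂ) (qf N c z u)).re * u ^ (-2 * σ - 1)) +
        (qf N c z u * (starRingEnd ℂ) (qf N c z u)).re * u ^ (-2 * σ - 1) := by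
    intro u
    rw [normsq82, normsq82]
    unfold Gf
    rw [map_sub]
    have : ((fu X b z u - qf N c z u) * ((starRingEnd ℂ) (fu X b z u) - (starRingEnd ℂ) (qf N c z u))).re =
        (fu X b z u * (starRingEnd ℂ) (fu X b z u)).re - 2 * (fu X b z u * (starRingEnd ℂ) (qf N c z u)).re +
          (qf N c z u * (starRingEnd ℂ) (qf N c z u)).re := by
      simp only [Complex.mul_re, Complex.sub_re, Complex.sub_im, Complex.conj_re, Complex.conj_im]
      ring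
    rw [this]
    ring
  have i1 := (nice_fu X b hz).sq hσ hσ1
  have i2 := (nice_fu X b hz).mulI (nice_qf N c hz) hσ hσ1
  have i3 := (nice_qf N c hz).mulI (nice_qf N c hz) hσ hσ1
  simp_rw [e]
  have i12 : IntegrableOn (fun u : ℝ => ‖fu X b z u‖ ^ 2 * u ^ (-2 * σ - 1) -
      2 * ((fu X b z u * (starRingEnd ℂ) (qf N c z u)).re * u ^ (-2 * σ - 1))) (Ioi 0) := i1.sub (i2.const_mul 2)
  rw [integral_add i12 i3, integral_sub i1 (i2.const_mul 2), integral_const_mul, expand X b hz hσ hσ1]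
  congr 1
  · congr 2
    have e2 : ∀ u : ℝ, (fu X b z u * (starRingEnd ℂ) (qf N c z u)).re * u ^ (-2 * σ - 1) =
        ∑ h ∈ Finset.Icc 1 X, ∑ n ∈ Finset.Icc 1 N, b h * c n *
          ((rho z (u / h) * (starRingEnd ℂ) (pw z (u / n))).re * u ^ (-2 * σ - 1)) := by
      intro u
      unfold fu qf
      rw [map_sum, Finset.sum_mul_sum, Complex.re_sum, Finset.sum_mul]
      refine Finset.sum_congr rfl fun h _ => ?_
      rw [Complex.re_sum, Finset.sum_mul]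
      refine Finset.sum_congr rfl fun n _ => ?_
      rw [map_mul, Complex.conj_ofReal]
      have : (b h : ℂ) * rho z (u / h) * ((c n : ℂ) * (starRingEnd ℂ) (pw z (u / n))) =
          ((b h * c n : ℝ) : ℂ) * (rho z (u / h) * (starRingEnd ℂ) (pw z (u / n))) := by
        push_cast
        ring
      rw [this, Complex.re_ofReal_mul]
      ring
    simp_rw [e2]
    have hI : ∀ h ∈ Finset.Icc 1 X, ∀ n ∈ Finset.Icc 1 N, IntegrableOn (fun u : ℝ => b h * c n *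
        ((rho z (u / h) * (starRingEnd ℂ) (pw z (u / n))).re * u ^ (-2 * σ - 1))) (Ioi 0) := fun h hh n hn =>
      ((nice_rho hz (Finset.mem_Icc.1 hh).1).mulI (nice_pw hz (Finset.mem_Icc.1 hn).1) hσ hσ1).const_mul _
    rw [integral_finsetSum _ fun h hh => integrable_finsetSum _ fun n hn => hI h hh n hn]
    refine Finset.sum_congr rfl fun h hh => ?_
    rw [integral_finsetSum _ fun n hn => hI h hh n hn]
    refine Finset.sum_congr rfl fun n hn => ?_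
    rw [integral_const_mul]
    rfl
  · have e2 : ∀ u : ℝ, (qf N c z u * (starRingEnd ℂ) (qf N c z u)).re * u ^ (-2 * σ - 1) =
        ∑ m ∈ Finset.Icc 1 N, ∑ n ∈ Finset.Icc 1 N, c m * c n *
          ((pw z (u / m) * (starRingEnd ℂ) (pw z (u / n))).re * u ^ (-2 * σ - 1)) := by
      intro u
      unfold qf
      rw [map_sum, Finset.sum_mul_sum, Complex.re_sum, Finset.sum_mul]
      refine Finset.sum_congr rfl fun h _ => ?_
      rw [Complex.re_sum, Finset.sum_mul]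
      refine Finset.sum_congr rfl fun n _ => ?_
      rw [map_mul, Complex.conj_ofReal]
      have : (c h : ℂ) * pw z (u / h) * ((c n : ℂ) * (starRingEnd ℂ) (pw z (u / n))) =
          ((c h * c n : ℝ) : ℂ) * (pw z (u / h) * (starRingEnd ℂ) (pw z (u / n))) := by
        push_cast
        ring
      rw [this, Complex.re_ofReal_mul]
      ring
    simp_rw [e2]
    have hI : ∀ h ∈ Finset.Icc 1 N, ∀ n ∈ Finset.Icc 1 N, IntegrableOn (fun u : ℝ => c h * c n *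
        ((pw z (u / h) * (starRingEnd ℂ) (pw z (u / n))).re * u ^ (-2 * σ - 1))) (Ioi 0) := fun h hh n hn =>
      ((nice_pw hz (Finset.mem_Icc.1 hh).1).mulI (nice_pw hz (Finset.mem_Icc.1 hn).1) hσ hσ1).const_mul _
    rw [integral_finsetSum _ fun h hh => integrable_finsetSum _ fun n hn => hI h hh n hn]
    refine Finset.sum_congr rfl fun h hh => ?_
    rw [integral_finsetSum _ fun n hn => hI h hh n hn]
    refine Finset.sum_congr rfl fun n hn => ?_
    rw [integral_const_mul]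
    rfl

end Pool.Agent.Helper82.RG
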