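import Pool.Agent.Helper57.ED.SmA

/-!
# RG: mean squares of `ζ B - C` on a line: Mellin transform and Plancherel
-/

open MeasureTheory Set Filter Topology Complex
open Pool.Agent.Helper57.Zeta Pool.Agent.Helper57.LH Pool.Agent.Helper57.ED

namespace Pool.Agent.Helper82.RG

private lemma exp_image82 : Real.exp '' (univ : Set ℝ) = Ioi 0 := by
  rw [image_univ, Real.range_exp]

private lemma cov82 {E : Type*} [NormedAddCommGroup E] [NormedSpace ℝ E] (F : ℝ → E) :
    ∫ u in Ioi (0:ℝ), F u = ∫ v, Real.exp v • F (Real.exp v) := by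
  rw [← exp_image82, integral_image_eq_integral_abs_deriv_smul MeasurableSet.univ
    (fun x _ => (Real.hasDerivAt_exp x).hasDerivWithinAt) Real.exp_injective.injOn, setIntegral_univ]
  refine integral_congr_ae (Eventually.of_forall fun v => ?_)
  simp only
  rw [abs_of_pos (Real.exp_pos v)]

private lemma covI82 {E : Type*} [NormedAddCommGroup E] [NormedSpace ℝ E] (F : ℝ → E) :
    IntegrableOn F (Ioi 0) ↔ Integrable (fun v => Real.exp v • F (Real.exp v)) := by
  rw [← exp_image82, integrableOn_image_iff_integrableOn_abs_deriv_smul MeasurableSet.univ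
    (fun x _ => (Real.hasDerivAt_exp x).hasDerivWithinAt) Real.exp_injective.injOn, integrableOn_univ]
  refine integrable_congr (Eventually.of_forall fun v => ?_)
  simp only
  rw [abs_of_pos (Real.exp_pos v)]

/-- A bounded measurable function which is `O(u)` near `0`. -/
structure Nice (G : ℝ → ℂ) : Prop where
  meas : Measurable G
  bd : ∃ C : ℝ, 0 ≤ C ∧ ∀ u : ℝ, 0 < u → ‖G u‖ ≤ C
  small : ∃ C : ℝ, 0 ≤ C ∧ ∀ u : ℝ, 0 < u → u < 1 → ‖G u‖ ≤ C * u

/-- domination by a bounded function, `O(u)` near `0` -/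
lemma dom82 {F : ℝ → ℝ} (hm : Measurable F) {C D a : ℝ} (ha : 0 < a) (ha2 : a < 2)
    (h1 : ∀ u : ℝ, 0 < u → |F u| ≤ C) (h2 : ∀ u : ℝ, 0 < u → u < 1 → |F u| ≤ D * u ^ 2) :
    IntegrableOn (fun u : ℝ => F u * u ^ (-a - 1)) (Ioi 0) := by
  have hmeas : Measurable (fun u : ℝ => F u * u ^ (-a - 1)) := hm.mul (measurable_id.pow_const _)
  rw [← Ioc_union_Ioi_eq_Ioi (zero_le_one : (0:ℝ) ≤ 1)]
  refine IntegrableOn.union ?_ ?_
  · rw [integrableOn_Ioc_iff_integrableOn_Ioo]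
    have h3 : IntegrableOn (fun u : ℝ => D * u ^ (1 - a)) (Ioo 0 1) := by
      refine Integrable.const_mul ?_ _
      rw [← IntegrableOn, ← integrableOn_Ioc_iff_integrableOn_Ioo,
        ← intervalIntegrable_iff_integrableOn_Ioc_of_le zero_le_one]
      exact intervalIntegral.intervalIntegrable_rpow' (by linarith)
    refine h3.mono' hmeas.aestronglyMeasurable ?_
    refine (ae_restrict_iff' measurableSet_Ioo).2 (Eventually.of_forall fun u hu => ?_)
    have h4 : 0 ≤ u ^ (-a - 1) := Real.rpow_nonneg hu.1.le _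
    rw [norm_mul, Real.norm_of_nonneg h4, Real.norm_eq_abs]
    calc |F u| * u ^ (-a - 1) ≤ D * u ^ 2 * u ^ (-a - 1) := mul_le_mul_of_nonneg_right (h2 u hu.1 hu.2) h4
      _ = D * (u ^ (2:ℝ) * u ^ (-a - 1)) := by
          rw [Real.rpow_two]
          ring
      _ = D * u ^ (1 - a) := by
          rw [← Real.rpow_add hu.1]
          congr 2
          ring
  · have h3 : IntegrableOn (fun u : ℝ => C * u ^ (-a - 1)) (Ioi 1) :=
      (integrableOn_Ioi_rpow_of_lt (by linarith) zero_lt_one).const_mul _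
    refine h3.mono' hmeas.aestronglyMeasurable ?_
    refine (ae_restrict_iff' measurableSet_Ioi).2 (Eventually.of_forall fun u hu => ?_)
    have hu0 : (0:ℝ) < u := lt_trans zero_lt_one hu
    have h4 : 0 ≤ u ^ (-a - 1) := Real.rpow_nonneg hu0.le _
    rw [norm_mul, Real.norm_of_nonneg h4, Real.norm_eq_abs]
    exact mul_le_mul_of_nonneg_right (h1 u hu0) h4

lemma Nice.sq {G : ℝ → ℂ} (hG : Nice G) {σ : ℝ} (hσ : 0 < σ) (hσ1 : σ < 1) :
    IntegrableOn (fun u : ℝ => ‖G u‖ ^ 2 * u ^ (-2 * σ - 1)) (Ioi 0) := by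
  obtain ⟨C, hC, hC2⟩ := hG.bd
  obtain ⟨D, hD, hD2⟩ := hG.small
  have := dom82 (F := fun u => ‖G u‖ ^ 2) (hG.meas.norm.pow_const 2) (C := C ^ 2) (D := D ^ 2) (a := 2 * σ)
    (by linarith) (by linarith) (fun u hu => ?_) (fun u hu hu1 => ?_)
  · refine this.congr_fun (fun u _ => ?_) measurableSet_Ioi
    simp only
    congr 2
    ring
  · rw [abs_of_nonneg (by positivity)]
    exact pow_le_pow_left₀ (norm_nonneg _) (hC2 u hu) 2
  · rw [abs_of_nonneg (by positivity), ← mul_pow]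
    exact pow_le_pow_left₀ (norm_nonneg _) (hD2 u hu hu1) 2

/-- the function on the line -/
private noncomputable def gg82 (G : ℝ → ℂ) (σ : ℝ) (v : ℝ) : ℂ :=
  G (Real.exp v) * ((Real.exp (-σ * v) : ℝ) : ℂ)

private lemma gg_sq82 (G : ℝ → ℂ) (σ : ℝ) (v : ℝ) :
    ‖gg82 G σ v‖ ^ 2 =
      Real.exp v • (‖G (Real.exp v)‖ ^ 2 * Real.exp v ^ (-2 * σ - 1)) := by
  unfold gg82
  have e : Real.exp (-σ * v) ^ 2 = Real.exp v * Real.exp v ^ (-2 * σ - 1) := by
    rw [← Real.exp_nat_mul, ← Real.exp_mul, ← Real.exp_add]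
    congr 1
    push_cast
    ring
  rw [norm_mul, Complex.norm_real, Real.norm_of_nonneg (Real.exp_pos _).le, mul_pow, e,
    smul_eq_mul]
  ring

/-- Plancherel: the weighted mean square of `Φ` on the line against its Mellin original. -/
theorem pl_gen {G : ℝ → ℂ} (hG : Nice G) {Φ : ℝ → ℂ} {σ l τ R : ℝ} (hσ : 0 < σ) (hσ1 : σ < 1) (hl : 0 < l)
    (hR : 0 < R) (hM : ∀ t : ℝ, IntegrableOn (fun u : ℝ => G u * (u : ℂ) ^ (-(σ + t * I : ℂ) - 1)) (Ioi 0) ∧
      ∫ u in Ioi (0:ℝ), G u * (u : ℂ) ^ (-(σ + t * I : ℂ) - 1) = Φ t / (σ + t * I + (l - τ * I))) :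
    ∫ t in (-R)..R, PW (l + σ) (t - τ) * ‖Φ t‖ ^ 2 ≤
      2 * (l + σ) * ∫ u in Ioi (0:ℝ), ‖G u‖ ^ 2 * u ^ (-2 * σ - 1) := by
  set z : ℂ := l - τ * I with hz
  have key : ∀ t v : ℝ, Real.exp v • (G (Real.exp v) *
      ((Real.exp v : ℝ) : ℂ) ^ (-(σ + t * I : ℂ) - 1)) =
      Complex.exp (Complex.I * ((-t : ℝ) : ℂ) * v) * gg82 G σ v := by
    intro t v
    unfold gg82
    have hne : (((Real.exp v : ℝ)) : ℂ) ≠ 0 := by exact_mod_cast (Real.exp_pos _).ne'
    rw [Complex.real_smul, Complex.cpow_def_of_ne_zero hne, ← Complex.ofReal_log (Real.exp_pos _).le,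
      Real.log_exp]
    push_cast
    rw [mul_left_comm, ← Complex.exp_add, mul_left_comm, ← Complex.exp_add]
    congr 2
    ring
  have hgI : Integrable (gg82 G σ) := by
    have h := (hM 0).1
    rw [covI82] at h
    refine h.congr (Eventually.of_forall fun v => ?_)
    simp only
    rw [key 0 v]
    simp
  have hgF : ∀ t : ℝ, FT (gg82 G σ) (-t) = Φ t / (σ + t * I + z) := by
    intro t
    have h := (hM t).2
    rw [← h, cov82]
    unfold FT
    refine integral_congr_ae (Eventually.of_forall fun v => ?_)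
    simp only
    rw [key t v]
  have hg2 : Integrable (fun v => ‖gg82 G σ v‖ ^ 2) := by
    have h := hG.sq hσ hσ1
    rw [covI82] at h
    exact h.congr (Eventually.of_forall fun v => (gg_sq82 G σ v).symm)
  have hI2 : ∫ v, ‖gg82 G σ v‖ ^ 2 =
      ∫ u in Ioi (0:ℝ), ‖G u‖ ^ 2 * u ^ (-2 * σ - 1) := by
    rw [cov82]
    exact integral_congr_ae (Eventually.of_forall fun v => gg_sq82 G σ v)
  have hpl := planch hgI hg2 (a := -R) (b := R) (by linarith)
  have hW : 0 < l + σ := by linarith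
  have hpt : ∀ t : ℝ, PW (l + σ) (t - τ) * ‖Φ t‖ ^ 2 =
      (l + σ) / Real.pi * ‖FT (gg82 G σ) (-t)‖ ^ 2 := by
    intro t
    rw [hgF t, norm_div, div_pow]
    have e : ‖(σ + t * I + z : ℂ)‖ ^ 2 = (l + σ) ^ 2 + (t - τ) ^ 2 := by
      rw [← Complex.normSq_eq_norm_sq, Complex.normSq_apply]
      simp [hz]
      ring
    rw [e]
    unfold PW
    have h1 : 0 < (l + σ) ^ 2 + (t - τ) ^ 2 := by positivity
    have := Real.pi_pos
    field_simp
  simp_rw [hpt]
  rw [intervalIntegral.integral_const_mul]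
  have hneg : ∫ t in (-R)..R, ‖FT (gg82 G σ) (-t)‖ ^ 2 =
      ∫ t in (-R)..R, ‖FT (gg82 G σ) t‖ ^ 2 := by
    have := intervalIntegral.integral_comp_neg (a := -R) (b := R)
      (fun t => ‖FT (gg82 G σ) t‖ ^ 2)
    rw [this, neg_neg]
  rw [hneg]
  calc (l + σ) / Real.pi * ∫ t in (-R)..R, ‖FT (gg82 G σ) t‖ ^ 2
      ≤ (l + σ) / Real.pi * (2 * Real.pi * ∫ v, ‖gg82 G σ v‖ ^ 2) :=
        mul_le_mul_of_nonneg_left hpl (by positivity)
    _ = _ := by
        rw [hI2]
        have := Real.pi_pos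
        field_simp

/-- `x^{-z}` for `x ≥ 1`, zero below. -/
noncomputable def pw (z : ℂ) (x : ℝ) : ℂ := if 1 ≤ x then (x : ℂ) ^ (-z) else 0

lemma measurable_pw (z : ℂ) : Measurable (pw z) := by
  unfold pw
  exact Measurable.ite measurableSet_Ici (Complex.measurable_ofReal.pow_const _) measurable_const

lemma norm_pw {z : ℂ} {x : ℝ} (hx : 1 ≤ x) : ‖pw z x‖ = x ^ (-z.re) := by
  unfold pw
  rw [if_pos hx, norm_cpow_eq_rpow_re_of_pos (by linarith)]
  simp

lemma norm_pw_le {z : ℂ} (hz : 0 < z.re) (x : ℝ) : ‖pw z x‖ ≤ 1 := by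
  by_cases hx : 1 ≤ x
  · rw [norm_pw hx]
    exact Real.rpow_le_one_of_one_le_of_nonpos hx (by linarith)
  · unfold pw
    rw [if_neg hx]
    simp

/-- Mellin transform of `pw z (u/n)`. -/
lemma mellin_pw {z : ℂ} (hz : 0 < z.re) {s : ℂ} (hs : 0 < s.re) {n : ℕ} (hn : 1 ≤ n) :
    IntegrableOn (fun u : ℝ => pw z (u / n) * (u : ℂ) ^ (-s - 1)) (Ioi 0) ∧
    ∫ u in Ioi (0:ℝ), pw z (u / n) * (u : ℂ) ^ (-s - 1) = (n : ℂ) ^ (-s) / (s + z) := by
  have hn0 : (0:ℝ) < n := by exact_mod_cast hn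
  have hne : ((n : ℝ) : ℂ) ≠ 0 := by exact_mod_cast hn0.ne'
  have hre : (-(s + z) - 1).re < -1 := by
    simp
    linarith
  have e : ∀ u : ℝ, 0 < u → pw z (u / n) * (u : ℂ) ^ (-s - 1) =
      (Ici (n:ℝ)).indicator (fun u : ℝ => ((n : ℝ) : ℂ) ^ z * (u : ℂ) ^ (-(s + z) - 1)) u := by
    intro u hu
    have hu0 : (u : ℂ) ≠ 0 := by exact_mod_cast hu.ne'
    unfold pw
    by_cases h : (n:ℝ) ≤ u
    · rw [if_pos ((one_le_div hn0).2 h), indicator_of_mem (mem_Ici.2 h)]
      rw [Complex.ofReal_div, Complex.div_cpow_ofReal_nonneg hu.le hn0.le, Complex.cpow_neg, Complex.cpow_neg]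
      have e1 : (u : ℂ) ^ (-(s + z) - 1) = (u : ℂ) ^ (-s - 1) * ((u : ℂ) ^ z)⁻¹ := by
        rw [← Complex.cpow_neg, ← Complex.cpow_add _ _ hu0]
        congr 1
        ring
      rw [e1]
      have h1 : (u : ℂ) ^ z ≠ 0 := by
        rw [Complex.cpow_def_of_ne_zero hu0]
        exact Complex.exp_ne_zero _
      have h2 : ((n : ℝ) : ℂ) ^ z ≠ 0 := by
        rw [Complex.cpow_def_of_ne_zero hne]
        exact Complex.exp_ne_zero _
      field_simp
    · rw [if_neg (fun h' => h ((one_le_div hn0).1 h')), indicator_of_notMem (fun h' => h (mem_Ici.1 h'))]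
      simp
  have hI : IntegrableOn (fun u : ℝ => (u : ℂ) ^ (-(s + z) - 1)) (Ioi (n:ℝ)) :=
    integrableOn_Ioi_cpow_of_lt hre hn0
  have hI2 : IntegrableOn ((Ici (n:ℝ)).indicator (fun u : ℝ => ((n : ℝ) : ℂ) ^ z * (u : ℂ) ^ (-(s + z) - 1)))
      (Ioi 0) := by
    rw [integrableOn_indicator_iff measurableSet_Ici]
    have : Ici (n:ℝ) ∩ Ioi 0 = Ici (n:ℝ) := inter_eq_left.2 fun x hx => lt_of_lt_of_le hn0 hx
    rw [this, integrableOn_Ici_iff_integrableOn_Ioi]
    exact hI.const_mul _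
  constructor
  · exact hI2.congr_fun (fun u hu => (e u hu).symm) measurableSet_Ioi
  · rw [setIntegral_congr_fun measurableSet_Ioi (fun u hu => e u hu), setIntegral_indicator measurableSet_Ici]
    have : Ioi (0:ℝ) ∩ Ici (n:ℝ) = Ici (n:ℝ) := inter_eq_right.2 fun x hx => lt_of_lt_of_le hn0 hx
    rw [this, integral_Ici_eq_integral_Ioi, integral_const_mul, integral_Ioi_cpow_of_lt hre hn0]
    have h1 : s + z ≠ 0 := by
      intro h
      have := congrArg Complex.re h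
      simp at this
      linarith
    have e2 : -(s + z) - 1 + 1 = -(s + z) := by ring
    rw [e2, neg_div_neg_eq]
    have e3 : ((n : ℝ) : ℂ) ^ z * ((n : ℝ) : ℂ) ^ (-(s + z)) = (n : ℂ) ^ (-s) := by
      rw [← Complex.cpow_add _ _ hne]
      push_cast
      congr 1
      ring
    rw [← e3]
    ring

end Pool.Agent.Helper82.RG
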