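import Pool.Agent.Helper82.RG.Bil

/-!
# RG: the mean square of `ζ B - C` on a line (real coefficients, all parameters explicit)
-/

open MeasureTheory Set Filter Topology Complex
open Pool.Agent.Helper57.Zeta Pool.Agent.Helper57.LH Pool.Agent.Helper57.ED

namespace Pool.Agent.Helper82.RG

/-- `(1 * b)(j)` for `b` cut at `X` -/
noncomputable def lamb (X : ℕ) (b : ℕ → ℝ) (j : ℕ) : ℝ := ∑ h ∈ Finset.Icc 1 X, if h ∣ j then b h else 0

/-- cut of `c` at `N` -/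
noncomputable def cutc (N : ℕ) (c : ℕ → ℝ) (j : ℕ) : ℝ := if j ≤ N then c j else 0

lemma hasSum_mult {σ : ℝ} (hσ : 1 / 2 < σ) {P : ℕ} (hP : 1 ≤ P) :
    HasSum (fun j : ℕ => if P ∣ j + 1 then ((j:ℝ) + 1) ^ (-2 * σ) else 0) (zs σ * (P : ℝ) ^ (-2 * σ)) := by
  have hP0 : (0:ℝ) < P := by exact_mod_cast hP
  have hinj : Function.Injective (fun m : ℕ => P * (m + 1) - 1) := by
    intro m n h
    simp only at h
    have h1 : 1 ≤ P * (m + 1) := Nat.mul_pos hP (Nat.succ_pos _)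
    have h2 : 1 ≤ P * (n + 1) := Nat.mul_pos hP (Nat.succ_pos _)
    have h3 : P * (m + 1) = P * (n + 1) := by omega
    have h4 := Nat.eq_of_mul_eq_mul_left hP h3
    omega
  have hsupp : ∀ j ∉ Set.range (fun m : ℕ => P * (m + 1) - 1),
      (if P ∣ j + 1 then ((j:ℝ) + 1) ^ (-2 * σ) else 0) = 0 := by
    intro j hj
    rw [if_neg]
    rintro ⟨m, hm⟩
    apply hj
    have hm0 : m ≠ 0 := by
      rintro rfl
      simp at hm
    refine ⟨m - 1, ?_⟩
    simp only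
    rw [Nat.sub_add_cancel (by omega), ← hm]
    simp
  rw [← hinj.hasSum_iff hsupp]
  have h1 := (summable_zs hσ).hasSum.mul_right ((P : ℝ) ^ (-2 * σ))
  have e : ((fun j : ℕ => if P ∣ j + 1 then ((j:ℝ) + 1) ^ (-2 * σ) else 0) ∘ fun m : ℕ => P * (m + 1) - 1) =
      fun m : ℕ => ((m:ℝ) + 1) ^ (-2 * σ) * (P : ℝ) ^ (-2 * σ) := by
    funext m
    have h2 : 1 ≤ P * (m + 1) := Nat.mul_pos hP (Nat.succ_pos _)
    have h3 : P * (m + 1) - 1 + 1 = P * (m + 1) := Nat.sub_add_cancel h2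
    simp only [Function.comp]
    rw [h3, if_pos (Dvd.intro _ rfl)]
    have h4 : (((P * (m + 1) - 1 : ℕ) : ℝ) + 1) = P * ((m:ℝ) + 1) := by
      have : (((P * (m + 1) - 1 + 1 : ℕ) : ℝ)) = ((P * (m + 1) : ℕ) : ℝ) := by rw [h3]
      push_cast at this
      linarith
    rw [h4, Real.mul_rpow hP0.le (by positivity), mul_comm]
  rw [e]
  exact h1

lemma hasSum_pair {σ : ℝ} (hσ : 1 / 2 < σ) {h k : ℕ} (hh : 1 ≤ h) (hk : 1 ≤ k) :
    HasSum (fun j : ℕ => (if h ∣ j + 1 then (1:ℝ) else 0) * (if k ∣ j + 1 then (1:ℝ) else 0) *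
      ((j:ℝ) + 1) ^ (-2 * σ)) (zs σ * (Nat.lcm h k : ℝ) ^ (-2 * σ)) := by
  have h1 := hasSum_mult hσ (P := Nat.lcm h k) (Nat.lcm_pos hh hk)
  convert h1 using 2 with j
  by_cases a : h ∣ j + 1 <;> by_cases b : k ∣ j + 1
  · rw [if_pos a, if_pos b, if_pos (Nat.lcm_dvd a b)]
    ring
  · rw [if_pos a, if_neg b, if_neg fun h' => b ((Nat.dvd_lcm_right h k).trans h')]
    ring
  · rw [if_neg a, if_neg fun h' => a ((Nat.dvd_lcm_left h k).trans h')]
    ring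
  · rw [if_neg a, if_neg fun h' => a ((Nat.dvd_lcm_left h k).trans h')]
    ring

lemma hasSum_lamb {σ : ℝ} (hσ : 1 / 2 < σ) (X : ℕ) (b : ℕ → ℝ) :
    HasSum (fun j : ℕ => lamb X b (j + 1) ^ 2 * ((j:ℝ) + 1) ^ (-2 * σ))
      (∑ h ∈ Finset.Icc 1 X, ∑ k ∈ Finset.Icc 1 X, b h * b k * (zs σ * (Nat.lcm h k : ℝ) ^ (-2 * σ))) := by
  have h1 : HasSum (fun j : ℕ => ∑ h ∈ Finset.Icc 1 X, ∑ k ∈ Finset.Icc 1 X, b h * b k *
      ((if h ∣ j + 1 then (1:ℝ) else 0) * (if k ∣ j + 1 then (1:ℝ) else 0) * ((j:ℝ) + 1) ^ (-2 * σ)))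
      (∑ h ∈ Finset.Icc 1 X, ∑ k ∈ Finset.Icc 1 X, b h * b k * (zs σ * (Nat.lcm h k : ℝ) ^ (-2 * σ))) :=
    hasSum_sum fun h hh => hasSum_sum fun k hk =>
      (hasSum_pair hσ (Finset.mem_Icc.1 hh).1 (Finset.mem_Icc.1 hk).1).mul_left _
  convert h1 using 2 with j
  unfold lamb
  rw [sq, Finset.sum_mul_sum, Finset.sum_mul]
  refine Finset.sum_congr rfl fun h _ => ?_
  rw [Finset.sum_mul]
  refine Finset.sum_congr rfl fun k _ => ?_
  split_ifs <;> ring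

lemma sum_Icc_range (N : ℕ) (f : ℕ → ℝ) : ∑ n ∈ Finset.Icc 1 N, f n = ∑ j ∈ Finset.range N, f (j + 1) := by
  rw [Finset.range_eq_Ico, Finset.sum_Ico_add' f 0 N 1]
  rfl

lemma sum_div (X N : ℕ) (b c : ℕ → ℝ) (σ : ℝ) :
    ∑ h ∈ Finset.Icc 1 X, ∑ n ∈ Finset.Icc 1 N, b h * c n * (if h ∣ n then (n : ℝ) ^ (-2 * σ) else 0) =
      ∑ n ∈ Finset.Icc 1 N, lamb X b n * c n * (n : ℝ) ^ (-2 * σ) := by
  rw [Finset.sum_comm]
  refine Finset.sum_congr rfl fun n _ => ?_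
  unfold lamb
  rw [Finset.sum_mul, Finset.sum_mul]
  refine Finset.sum_congr rfl fun h _ => ?_
  split_ifs <;> ring

/-- The diagonal terms together. -/
lemma main_eq {σ : ℝ} (hσ : 1 / 2 < σ) (X N : ℕ) (b c : ℕ → ℝ) :
    (∑ h ∈ Finset.Icc 1 X, ∑ k ∈ Finset.Icc 1 X, b h * b k * (zs σ * (Nat.lcm h k : ℝ) ^ (-2 * σ))) -
      2 * (∑ n ∈ Finset.Icc 1 N, lamb X b n * c n * (n : ℝ) ^ (-2 * σ)) +
      ∑ n ∈ Finset.Icc 1 N, c n ^ 2 * (n : ℝ) ^ (-2 * σ) =
      ∑' j : ℕ, (lamb X b (j + 1) - cutc N c (j + 1)) ^ 2 * ((j:ℝ) + 1) ^ (-2 * σ) := by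
  have h1 := hasSum_lamb hσ X b
  have h2 : HasSum (fun j : ℕ => (2 * lamb X b (j + 1) * cutc N c (j + 1) - cutc N c (j + 1) ^ 2) *
      ((j:ℝ) + 1) ^ (-2 * σ)) (∑ j ∈ Finset.range N, (2 * lamb X b (j + 1) * cutc N c (j + 1) - cutc N c (j + 1) ^ 2) *
      ((j:ℝ) + 1) ^ (-2 * σ)) := by
    refine hasSum_sum_of_ne_finset_zero fun j hj => ?_
    have : ¬ (j + 1 ≤ N) := fun h => hj (Finset.mem_range.2 h)
    unfold cutc
    rw [if_neg this]
    ring
  have h3 := (h1.sub h2).tsum_eq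
  have e : ∀ j : ℕ, lamb X b (j + 1) ^ 2 * ((j:ℝ) + 1) ^ (-2 * σ) -
      (2 * lamb X b (j + 1) * cutc N c (j + 1) - cutc N c (j + 1) ^ 2) * ((j:ℝ) + 1) ^ (-2 * σ) =
      (lamb X b (j + 1) - cutc N c (j + 1)) ^ 2 * ((j:ℝ) + 1) ^ (-2 * σ) := fun j => by ring
  simp_rw [e] at h3
  rw [h3, sum_Icc_range N (fun n => lamb X b n * c n * (n : ℝ) ^ (-2 * σ)),
    sum_Icc_range N (fun n => c n ^ 2 * (n : ℝ) ^ (-2 * σ))]
  have e2 : ∑ j ∈ Finset.range N, (2 * lamb X b (j + 1) * cutc N c (j + 1) - cutc N c (j + 1) ^ 2) *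
      ((j:ℝ) + 1) ^ (-2 * σ) = 2 * (∑ j ∈ Finset.range N, lamb X b (j + 1) * c (j + 1) *
        ((j + 1 : ℕ) : ℝ) ^ (-2 * σ)) - ∑ j ∈ Finset.range N, c (j + 1) ^ 2 * ((j + 1 : ℕ) : ℝ) ^ (-2 * σ) := by
    rw [Finset.mul_sum, ← Finset.sum_sub_distrib]
    refine Finset.sum_congr rfl fun j hj => ?_
    have hj' : j + 1 ≤ N := Finset.mem_range.1 hj
    unfold cutc
    rw [if_pos hj']
    push_cast
    ring
  rw [e2]
  ring

lemma summable_zbc {σ : ℝ} (hσ : 1 / 2 < σ) (X N : ℕ) (b c : ℕ → ℝ) :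
    Summable (fun j : ℕ => (lamb X b (j + 1) - cutc N c (j + 1)) ^ 2 * ((j:ℝ) + 1) ^ (-2 * σ)) := by
  have h1 := (hasSum_lamb hσ X b).summable
  have h2 : Summable (fun j : ℕ => (2 * lamb X b (j + 1) * cutc N c (j + 1) - cutc N c (j + 1) ^ 2) *
      ((j:ℝ) + 1) ^ (-2 * σ)) := by
    refine summable_of_ne_finset_zero (s := Finset.range N) fun j hj => ?_
    have : ¬ (j + 1 ≤ N) := fun h => hj (Finset.mem_range.2 h)
    unfold cutc
    rw [if_neg this]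
    ring
  refine (h1.sub h2).congr fun j => ?_
  ring

/-- **The mean square of `ζ B - C`.** -/
theorem zbc (X N : ℕ) (b c : ℕ → ℝ) {σ l τ R : ℝ} (hl : 1 ≤ l) (hσ : 1 / 2 < σ) (hσ1 : σ ≤ 3 / 4) (hR : 0 < R) :
    ∫ t in (-R)..R, PW (l + σ) (t - τ) *
        ‖riemannZeta (σ + t * I) * Mo X b (σ + t * I) - Mo N c (σ + t * I)‖ ^ 2 ≤
      ∑' j : ℕ, (lamb X b (j + 1) - cutc N c (j + 1)) ^ 2 * ((j:ℝ) + 1) ^ (-2 * σ) +
        (∑ h ∈ Finset.Icc 1 X, |b h| + ∑ n ∈ Finset.Icc 1 N, |c n|) ^ 2 *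
          (15 * (1 + |τ| / l) / (l * (2 * σ - 1)) + 4 / l +
            (2 * N + 2 * (3 + |τ| / l)) * Real.exp (-(l / (N + 1)))) := by
  have hl0 : 0 < l := by linarith
  have hs' : 0 < 2 * σ - 1 := by linarith
  set z : ℂ := l - τ * I with hz
  have hzr : z.re = l := by simp [hz]
  have hz0 : 0 < z.re := by rw [hzr]; exact hl0
  have hzn : ‖z‖ / l ≤ 1 + |τ| / l := by
    have : ‖z‖ ≤ l + |τ| := by
      rw [hz]
      refine (norm_sub_le _ _).trans (le_of_eq ?_)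
      rw [norm_mul, Complex.norm_I, mul_one, Complex.norm_real, Complex.norm_real, Real.norm_of_nonneg hl0.le,
        Real.norm_eq_abs]
    calc ‖z‖ / l ≤ (l + |τ|) / l := div_le_div_of_nonneg_right this hl0.le
      _ = _ := by field_simp
  set E1 := 15 * (1 + |τ| / l) / (l * (2 * σ - 1)) with hE1
  set E2 := 4 / l + (2 * N + 2 * (3 + |τ| / l)) * Real.exp (-(l / (N + 1))) with hE2
  have hE10 : 0 ≤ E1 := by positivity
  have hE20 : 0 ≤ E2 := by positivity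
  obtain ⟨c0, hc0, hc⟩ := corr (τ := τ) hl hσ hσ1
  refine (pl_Gf X N b c (by linarith) (by linarith) hl0 hR).trans ?_
  rw [sq_expand X N b c hz0 (by linarith) (by linarith)]
  -- first part
  have P1 : 2 * (l + σ) * (∑ h ∈ Finset.Icc 1 X, ∑ k ∈ Finset.Icc 1 X, b h * b k * Cc z σ h k) ≤
      (∑ h ∈ Finset.Icc 1 X, ∑ k ∈ Finset.Icc 1 X, b h * b k * (zs σ * (Nat.lcm h k : ℝ) ^ (-2 * σ))) +
        (∑ h ∈ Finset.Icc 1 X, |b h|) ^ 2 * E1 := by
    have h1 : ∀ h ∈ Finset.Icc 1 X, 2 * (l + σ) * ∑ k ∈ Finset.Icc 1 X, b h * b k * Cc z σ h k ≤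
        ∑ k ∈ Finset.Icc 1 X, (b h * b k * (zs σ * (Nat.lcm h k : ℝ) ^ (-2 * σ)) -
          c0 * ((b h / h) * (b k / k) * (Nat.gcd h k : ℝ) ^ (2 - 2 * σ)) + |b h| * |b k| * E1) := by
      intro h hh
      rw [Finset.mul_sum]
      refine Finset.sum_le_sum fun k hk => ?_
      have hh1 := (Finset.mem_Icc.mp hh).1
      have hk1 := (Finset.mem_Icc.mp hk).1
      have h2 := hc h k hh1 hk1
      have hhR : (0:ℝ) < h := by exact_mod_cast hh1
      have hkR : (0:ℝ) < k := by exact_mod_cast hk1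
      have hgR : (0:ℝ) < Nat.gcd h k := by exact_mod_cast Nat.gcd_pos_of_pos_left _ hh1
      have hPR : (0:ℝ) < Nat.lcm h k := by exact_mod_cast Nat.lcm_pos hh1 hk1
      have hgP : (Nat.gcd h k : ℝ) * Nat.lcm h k = h * k := by exact_mod_cast Nat.gcd_mul_lcm h k
      have e1 : (Nat.gcd h k : ℝ) ^ (1 - 2 * σ) / Nat.lcm h k = (Nat.gcd h k : ℝ) ^ (2 - 2 * σ) / (h * k) := by
        rw [← hgP, show (2 - 2 * σ) = (1 - 2 * σ) + 1 by ring, Real.rpow_add_one hgR.ne']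
        field_simp
      rw [e1] at h2
      set V := 2 * (l + σ) * Cc z σ h k with hV
      set U := zs σ * (Nat.lcm h k : ℝ) ^ (-2 * σ) - c0 * ((Nat.gcd h k : ℝ) ^ (2 - 2 * σ) / (h * k)) with hU
      have e2 : 2 * (l + σ) * (b h * b k * Cc z σ h k) = b h * b k * V := by rw [hV]; ring
      have e3 : b h * b k * (zs σ * (Nat.lcm h k : ℝ) ^ (-2 * σ)) -
          c0 * ((b h / h) * (b k / k) * (Nat.gcd h k : ℝ) ^ (2 - 2 * σ)) + |b h| * |b k| * E1 =
          b h * b k * U + |b h| * |b k| * E1 := by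
        rw [hU]
        field_simp
      rw [e2, e3]
      have h4 : b h * b k * (V - U) ≤ |b h| * |b k| * E1 := by
        calc b h * b k * (V - U) ≤ |b h * b k * (V - U)| := le_abs_self _
          _ = |b h| * |b k| * |V - U| := by rw [abs_mul, abs_mul]
          _ ≤ |b h| * |b k| * E1 := mul_le_mul_of_nonneg_left h2 (by positivity)
      linarith
    rw [Finset.mul_sum]
    refine (Finset.sum_le_sum h1).trans ?_
    have h5 : ∑ h ∈ Finset.Icc 1 X, ∑ k ∈ Finset.Icc 1 X, (b h * b k * (zs σ * (Nat.lcm h k : ℝ) ^ (-2 * σ)) -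
          c0 * ((b h / h) * (b k / k) * (Nat.gcd h k : ℝ) ^ (2 - 2 * σ)) + |b h| * |b k| * E1) =
        (∑ h ∈ Finset.Icc 1 X, ∑ k ∈ Finset.Icc 1 X, b h * b k * (zs σ * (Nat.lcm h k : ℝ) ^ (-2 * σ))) -
        c0 * (∑ h ∈ Finset.Icc 1 X, ∑ k ∈ Finset.Icc 1 X, (b h / h) * (b k / k) * (Nat.gcd h k : ℝ) ^ (2 - 2 * σ)) +
        (∑ h ∈ Finset.Icc 1 X, |b h|) ^ 2 * E1 := by
      rw [sq, Finset.sum_mul_sum]
      simp only [Finset.sum_add_distrib, Finset.sum_sub_distrib, Finset.mul_sum, Finset.sum_mul]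
    rw [h5]
    have h6 := gcd_form_nonneg (α := 2 - 2 * σ) (by linarith) X (fun h => b h / h)
    have h10 := mul_nonneg hc0 h6
    linarith
  -- second part
  have P2 : |2 * (l + σ) * (∑ h ∈ Finset.Icc 1 X, ∑ n ∈ Finset.Icc 1 N, b h * c n *
        bil σ (fun u => rho z (u / h)) (fun u => pw z (u / n))) -
      ∑ n ∈ Finset.Icc 1 N, lamb X b n * c n * (n : ℝ) ^ (-2 * σ)| ≤
      (∑ h ∈ Finset.Icc 1 X, |b h|) * (∑ n ∈ Finset.Icc 1 N, |c n|) * E2 := by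
    rw [← sum_div, Finset.mul_sum, ← Finset.sum_sub_distrib, Finset.sum_mul_sum, Finset.sum_mul]
    refine (Finset.abs_sum_le_sum_abs _ _).trans (Finset.sum_le_sum fun h hh => ?_)
    rw [Finset.mul_sum, ← Finset.sum_sub_distrib, Finset.sum_mul]
    refine (Finset.abs_sum_le_sum_abs _ _).trans (Finset.sum_le_sum fun n hn => ?_)
    have h1 := bil_cross (z := z) (by rw [hzr]; exact hl) hσ (by linarith) (Finset.mem_Icc.1 hh).1
      (Finset.mem_Icc.1 hn).1 (Finset.mem_Icc.1 hn).2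
    rw [hzr] at h1
    have e : 2 * (l + σ) * (b h * c n * bil σ (fun u => rho z (u / h)) (fun u => pw z (u / n))) -
        b h * c n * (if h ∣ n then (n : ℝ) ^ (-2 * σ) else 0) =
        b h * c n * (2 * (l + σ) * bil σ (fun u => rho z (u / h)) (fun u => pw z (u / n)) -
          (if h ∣ n then (n : ℝ) ^ (-2 * σ) else 0)) := by ring
    rw [e, abs_mul, abs_mul]
    refine mul_le_mul_of_nonneg_left (h1.trans ?_) (by positivity)
    rw [hE2]
    have : 2 + ‖z‖ / l ≤ 3 + |τ| / l := by linarith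
    have hexp := (Real.exp_pos (-(l / ((N:ℝ) + 1)))).le
    have := mul_le_mul_of_nonneg_right this hexp
    nlinarith
  -- third part
  have P3 : 2 * (l + σ) * (∑ m ∈ Finset.Icc 1 N, ∑ n ∈ Finset.Icc 1 N, c m * c n *
          bil σ (fun u => pw z (u / m)) (fun u => pw z (u / n))) ≤
      ∑ n ∈ Finset.Icc 1 N, c n ^ 2 * (n : ℝ) ^ (-2 * σ) + (∑ n ∈ Finset.Icc 1 N, |c n|) ^ 2 * E2 := by
    have hd : ∑ n ∈ Finset.Icc 1 N, c n ^ 2 * (n : ℝ) ^ (-2 * σ) = ∑ m ∈ Finset.Icc 1 N, ∑ n ∈ Finset.Icc 1 N,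
        c m * c n * (if m = n then (n : ℝ) ^ (-2 * σ) else 0) := by
      refine Finset.sum_congr rfl fun m hm => ?_
      rw [Finset.sum_eq_single m]
      · rw [if_pos rfl]; ring
      · intro n _ hn
        rw [if_neg hn.symm, mul_zero]
      · intro h; exact absurd hm h
    rw [hd, sq, Finset.sum_mul_sum, Finset.sum_mul, Finset.mul_sum, ← Finset.sum_add_distrib]
    refine Finset.sum_le_sum fun m hm => ?_
    rw [Finset.mul_sum, Finset.sum_mul, ← Finset.sum_add_distrib]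
    refine Finset.sum_le_sum fun n hn => ?_
    have hm1 := (Finset.mem_Icc.1 hm).1
    have hn1 := (Finset.mem_Icc.1 hn).1
    have hN1 : 1 ≤ N := hm1.trans (Finset.mem_Icc.1 hm).2
    have hN0 : (0:ℝ) < N := by exact_mod_cast hN1
    have hEx : Real.exp (-(l / N)) ≤ E2 := by
      have h1 : Real.exp (-(l / N)) ≤ Real.exp (-(l / (N + 1))) := by
        apply Real.exp_le_exp.2
        rw [neg_le_neg_iff]
        exact div_le_div_of_nonneg_left hl0.le hN0 (by linarith)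
      have h2 : Real.exp (-(l / (N + 1))) ≤ (2 * N + 2 * (3 + |τ| / l)) * Real.exp (-(l / (N + 1))) := by
        refine le_mul_of_one_le_left (Real.exp_pos _).le ?_
        have : 0 ≤ |τ| / l := by positivity
        linarith
      have h3 : 0 ≤ 4 / l := by positivity
      rw [hE2]
      linarith
    have key : |2 * (l + σ) * bil σ (fun u => pw z (u / m)) (fun u => pw z (u / n)) -
        (if m = n then (n : ℝ) ^ (-2 * σ) else 0)| ≤ E2 := by
      rcases lt_trichotomy m n with h | h | h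
      · rw [if_neg h.ne, sub_zero]
        have := bil_off (z := z) hz0 (σ := σ) (by linarith) hm1 h (Finset.mem_Icc.1 hn).2
        rw [hzr] at this
        exact this.trans hEx
      · subst h
        rw [if_pos rfl]
        have := bil_diag (z := z) hz0 (σ := σ) (by linarith) hm1
        rw [hzr] at this
        rw [this, sub_self, abs_zero]
        exact hE20
      · rw [if_neg h.ne', sub_zero, bil_comm]
        have := bil_off (z := z) hz0 (σ := σ) (by linarith) hn1 h (Finset.mem_Icc.1 hm).2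
        rw [hzr] at this
        exact this.trans hEx
    have e : 2 * (l + σ) * (c m * c n * bil σ (fun u => pw z (u / m)) (fun u => pw z (u / n))) =
        c m * c n * (if m = n then (n : ℝ) ^ (-2 * σ) else 0) + c m * c n * (2 * (l + σ) *
          bil σ (fun u => pw z (u / m)) (fun u => pw z (u / n)) - (if m = n then (n : ℝ) ^ (-2 * σ) else 0)) := by ring
    rw [e]
    refine add_le_add le_rfl ?_
    calc _ ≤ |c m * c n * (2 * (l + σ) * bil σ (fun u => pw z (u / m)) (fun u => pw z (u / n)) -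
          (if m = n then (n : ℝ) ^ (-2 * σ) else 0))| := le_abs_self _
      _ = |c m| * |c n| * |_| := by rw [abs_mul, abs_mul]
      _ ≤ _ := mul_le_mul_of_nonneg_left key (by positivity)
  have hm := main_eq hσ X N b c
  have P2' := (abs_le.1 P2).1
  set S1 := ∑ h ∈ Finset.Icc 1 X, |b h| with hS1
  set S2 := ∑ n ∈ Finset.Icc 1 N, |c n| with hS2
  have hS10 : 0 ≤ S1 := Finset.sum_nonneg fun _ _ => abs_nonneg _
  have hS20 : 0 ≤ S2 := Finset.sum_nonneg fun _ _ => abs_nonneg _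
  rw [← hm]
  have hfin : S1 ^ 2 * E1 + 2 * (S1 * S2 * E2) + S2 ^ 2 * E2 ≤ (S1 + S2) ^ 2 * (E1 + E2) := by
    have a1 : 0 ≤ S1 * S2 * E1 := by positivity
    have a2 : 0 ≤ S2 ^ 2 * E1 := by positivity
    have a3 : 0 ≤ S1 ^ 2 * E2 := by positivity
    nlinarith
  have hE12 : E1 + E2 = 15 * (1 + |τ| / l) / (l * (2 * σ - 1)) + 4 / l +
            (2 * N + 2 * (3 + |τ| / l)) * Real.exp (-(l / (N + 1))) := by
    rw [hE1, hE2]
    ring
  rw [← hE12]
  have e : ∀ A B C : ℝ, 2 * (l + σ) * (A - 2 * B + C) = 2 * (l + σ) * A - 2 * (2 * (l + σ) * B) + 2 * (l + σ) * C :=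
    fun A B C => by ring
  rw [e]
  linarith

end Pool.Agent.Helper82.RG
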